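import Pool.Agent.E8helper34.HC.Fin

/-!
Problem MP_688fd0_co: Hamiltonian paths of Cayley graphs, from a subgroup with a large double
coset.
-/

namespace Pool.Agent.E8helper34.HC.DoubleCosetsH34

universe u

/-- `l` lists the elements of the subgroup `H`, each of them once, starts with `x` and ends with
`y`, and each element of `l` is obtained from the preceding one by right multiplication by an
element of `A`: a Hamiltonian path from `x` to `y` in the Cayley graph of `H` with respect to
`A ∩ H`. -/
def HamPath {G : Type u} [Group G] (A : Set G) (H : Subgroup G) (x y : G) (l : List G) : Prop :=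
  l.Nodup ∧ (∀ g, g ∈ l ↔ g ∈ H) ∧ l.IsChain (fun g h => g⁻¹ * h ∈ A) ∧
    l.head? = some x ∧ l.getLast? = some y

/-- Any two different elements of `H`, of different sign if `sgn` is not trivial, are joined by a
Hamiltonian path of the Cayley graph of `H` with respect to `A ∩ H`. For trivial `sgn` this means
that the graph is Hamilton-connected. If `sgn` is `-1` on `A`, the graph is bipartite, and this
means that it is Hamilton-laceable. -/
def Joined {G : Type u} [Group G] (A : Set G) (sgn : G →* ℤˣ) (H : Subgroup G) : Prop :=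
  ∀ x ∈ H, ∀ y ∈ H, x ≠ y → (sgn ≠ 1 → sgn x ≠ sgn y) → ∃ l, HamPath A H x y l

/-- `a_1, …, a_n ∈ A`, where `n = |G|`, have pairwise distinct partial products
`a_1, a_1 a_2, …, a_1 ⋯ a_n`, the last of which is `1`. -/
def ClosedListing {G : Type u} [Group G] (A : Set G) (a : Fin (Nat.card G) → G) : Prop :=
  (∀ i, a i ∈ A) ∧
  Function.Injective (fun k : Fin (Nat.card G) => ((List.ofFn a).take (k.val + 1)).prod) ∧
  (List.ofFn a).prod = 1

open Pool.Agent.E8helper34.HC in
theorem joined_one {G : Type u} [Group G] (A : Set G) (H : Subgroup G) :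
    Joined A 1 H ↔ HC A H := by
  constructor
  · intro h x hx y hy hxy
    obtain ⟨l, h1, h2, h3, h4, h5⟩ := h x hx y hy hxy (fun h => absurd rfl h)
    exact ⟨l, h1, h2, h3, h4, h5⟩
  · intro h x hx y hy hxy _
    obtain ⟨l, h1, h2, h3, h4, h5⟩ := h x hx y hy hxy
    exact ⟨l, h1, h2, h3, h4, h5⟩

open Pool.Agent.E8helper34.HC in
theorem joined_ne {G : Type u} [Group G] (A : Set G) (sgn : G →* ℤˣ) (hs : sgn ≠ 1)
    (H : Subgroup G) : Joined A sgn H ↔ LC A sgn H := by
  constructor
  · intro h x hx y hy hxy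
    obtain ⟨l, h1, h2, h3, h4, h5⟩ := h x hx y hy (fun e => hxy (by rw [e])) (fun _ => hxy)
    exact ⟨l, h1, h2, h3, h4, h5⟩
  · intro h x hx y hy _ hxy
    obtain ⟨l, h1, h2, h3, h4, h5⟩ := h x hx y hy (hxy hs)
    exact ⟨l, h1, h2, h3, h4, h5⟩

open Pool.Agent.E8helper34.HC in
/-- Let `A ⊆ G` be symmetric and let `sgn` be a homomorphism to `{1, -1}`, which is either trivial
or equal to `-1` on `A`. Let `H` be a subgroup, any two different elements of which (of different
sign, if `sgn` is not trivial) are joined by a Hamiltonian path of the Cayley graph of `H`, and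
let `C ⊆ A` be symmetric and disjoint from `H`, such that for each `c ∈ C` the group
`H ∩ c H c⁻¹` has at least three elements, if `sgn` is trivial, and contains an element of sign
`-1`, otherwise. If `2 |H C H| ≥ |G| + 2 |H|`, then any two different elements of `G` (of different
sign, if `sgn` is not trivial) are joined by a Hamiltonian path of the Cayley graph of `G` with
respect to `A`, and there is a closed listing sequence of elements of `A`. -/
theorem result {G : Type u} [Group G] [Finite G] (A C : Set G) (H : Subgroup G) (sgn : G →* ℤˣ)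
    (hA : ∀ a ∈ A, a⁻¹ ∈ A) (hCA : C ⊆ A) (hC : ∀ c ∈ C, c⁻¹ ∈ C) (hCH : ∀ c ∈ C, c ∉ H)
    (hH : Joined A sgn H)
    (hs : (sgn = 1 ∧ ∀ c ∈ C, 3 ≤ Set.ncard {h : G | h ∈ H ∧ c⁻¹ * h * c ∈ H}) ∨
      ((∀ a ∈ A, sgn a = -1) ∧ ∀ c ∈ C, ∃ h : G, h ∈ H ∧ c⁻¹ * h * c ∈ H ∧ sgn h = -1))
    (h2 : Nat.card G + 2 * Nat.card H ≤
      2 * Set.ncard {g : G | ∃ h ∈ H, ∃ c ∈ C, ∃ h' ∈ H, g = h * c * h'}) :
    Joined A sgn ⊤ ∧ ∃ a : Fin (Nat.card G) → G, ClosedListing A a := by
  have hK : Nat.card (⊤ : Subgroup G) = Nat.card G := Subgroup.card_top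
  -- there is an element of `C`
  obtain ⟨c, hc⟩ : C.Nonempty := by
    rw [Set.nonempty_iff_ne_empty]
    rintro rfl
    have hpos : 0 < Nat.card G := Nat.card_pos
    simp at h2
    omega
  rcases hs with ⟨rfl, h3⟩ | ⟨hodd, h1⟩
  · have key : HC A (⊤ : Subgroup G) :=
      step_HC hA hCA hC (fun c _ => Subgroup.mem_top c) hCH le_top ((joined_one A H).1 hH) h3
        (by rw [hK]; exact h2)
    exact ⟨(joined_one A ⊤).2 key,
      closed_of_HC key (hCA hc) (fun h => hCH c hc (h ▸ H.one_mem))⟩
  · have hsgn : sgn ≠ 1 := by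
      rintro rfl
      have := hodd c (hCA hc)
      rw [MonoidHom.one_apply] at this
      exact absurd this (by decide)
    have key : LC A sgn (⊤ : Subgroup G) :=
      step_LC hA hodd hCA hC (fun c _ => Subgroup.mem_top c) hCH le_top
        ((joined_ne A sgn hsgn H).1 hH) (fun c hc => by
          obtain ⟨h, h4, h5, h6⟩ := h1 c hc
          exact ⟨h, h4, h6, h5⟩)
        (by rw [hK]; exact h2)
    exact ⟨(joined_ne A sgn hsgn ⊤).2 key, closed_of_LC key (hCA hc) (hodd c (hCA hc))⟩

end Pool.Agent.E8helper34.HC.DoubleCosetsH34
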