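import Pool.Agent.E8helper34.HC.Perm

/-!
Closed listing sequences; groups acting transitively on pairs.
-/

set_option autoImplicit false
set_option linter.dupNamespace false

namespace Pool.Agent.E8helper34.HC

open Equiv

theorem LP.comap {V W : Type*} {R : V → V → Prop} {R' : W → W → Prop} (f : V → W)
    (hf : Function.Injective f) (hR : ∀ x y, R' (f x) (f y) → R x y) {S : Set W} {x y : V}
    {l : List V} (h : LP R' S (f x) (f y) (l.map f)) : LP R (f ⁻¹' S) x y l := by
  refine ⟨h.nodup.of_map, ?_, ?_, ?_, ?_⟩
  · intro v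
    rw [Set.mem_preimage, ← h.mem, List.mem_map_of_injective hf]
  · have := h.chain
    rw [List.isChain_map] at this
    exact this.imp hR
  · have := h.head
    rw [List.head?_map] at this
    cases hl : l.head? with
    | none => rw [hl] at this; simp at this
    | some z =>
      rw [hl] at this
      simp only [Option.map_some, Option.some.injEq] at this
      rw [hf this]
  · have := h.last
    rw [List.getLast?_map] at this
    cases hl : l.getLast? with
    | none => rw [hl] at this; simp at this
    | some z =>
      rw [hl] at this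
      simp only [Option.map_some, Option.some.injEq] at this
      rw [hf this]

theorem HC_comap {G : Type*} [Group G] (T : Subgroup G) (A : Set T)
    (h : HC (Subtype.val '' A) T) : HC A (⊤ : Subgroup T) := by
  intro x _ y _ hxy
  obtain ⟨l, hl⟩ := h x.1 x.2 y.1 y.2 (fun e => hxy (Subtype.ext e))
  have hmem : ∀ z ∈ l, z ∈ T := fun z hz => (hl.mem z).1 hz
  lift l to List T using hmem
  refine ⟨l, ?_⟩
  have := LP.comap (R := St A) (fun z : T => (z : G)) Subtype.val_injective (by
    intro a b hab
    obtain ⟨c, hc, hc'⟩ := hab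
    show a⁻¹ * b ∈ A
    have : a⁻¹ * b = c := Subtype.ext hc'.symm
    rw [this]; exact hc) hl
  refine this.congr ?_
  ext z
  simp

/-- `a_1, …, a_n ∈ A`, where `n = |G|`, have pairwise distinct partial products
`a_1, a_1 a_2, …, a_1 ⋯ a_n`, the last of which is `1`. -/
def CL {G : Type*} [Group G] (A : Set G) (a : Fin (Nat.card G) → G) : Prop :=
  (∀ i, a i ∈ A) ∧
  Function.Injective (fun k : Fin (Nat.card G) => ((List.ofFn a).take (k.val + 1)).prod) ∧
  (List.ofFn a).prod = 1

theorem closed_of_LP_gen {G : Type*} [Group G] {A S : Set G} {x y : G} {l : List G}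
    (h : LP (St A) S x y l) (hc : y⁻¹ * x ∈ A) (N : ℕ) (hlen : l.length = N) (hpos : 0 < N) :
    ∃ a : Fin N → G, (∀ i, a i ∈ A) ∧
      Function.Injective (fun k : Fin N => ((List.ofFn a).take (k.val + 1)).prod) ∧
      (List.ofFn a).prod = 1 := by
  let f : ℕ → G := fun i => l.getD (i % N) 1
  have hfget : ∀ i (hi : i < N), f i = l[i]'(by rw [hlen]; exact hi) := by
    intro i hi
    show l.getD (i % N) 1 = _
    rw [Nat.mod_eq_of_lt hi, List.getD_eq_getElem _ _ (by rw [hlen]; exact hi)]
  have hf0 : f 0 = x := by
    rw [hfget 0 hpos]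
    have := h.head
    rw [List.head?_eq_getElem?, List.getElem?_eq_getElem (by rw [hlen]; exact hpos)] at this
    exact Option.some.inj this
  have hfN : f N = x := by
    rw [← hf0]
    show l.getD (N % N) 1 = l.getD (0 % N) 1
    rw [Nat.mod_self, Nat.zero_mod]
  have hfl : f (N - 1) = y := by
    rw [hfget (N - 1) (by omega)]
    have := h.last
    rw [List.getLast?_eq_getElem?, List.getElem?_eq_getElem (by rw [hlen]; omega)] at this
    have h2 := Option.some.inj this
    rw [← h2]
    congr 1
    rw [hlen]
  let a : Fin N → G := fun i => (f i.val)⁻¹ * f (i.val + 1)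
  have hprod : ∀ m, m ≤ N → ((List.ofFn a).take m).prod = (f 0)⁻¹ * f m := by
    intro m
    induction m with
    | zero => intro _; simp
    | succ m ih =>
      intro hm
      have hm' : m < (List.ofFn a).length := by rw [List.length_ofFn]; omega
      rw [List.take_succ_eq_append_getElem hm', List.prod_append, ih (by omega),
        List.prod_singleton, List.getElem_ofFn]
      show (f 0)⁻¹ * f m * ((f m)⁻¹ * f (m + 1)) = _
      rw [mul_assoc, mul_inv_cancel_left]
  refine ⟨a, ?_, ?_, ?_⟩
  · intro i
    show (f i.val)⁻¹ * f (i.val + 1) ∈ A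
    by_cases hi : i.val + 1 < N
    · rw [hfget _ i.isLt, hfget _ hi]
      have := List.isChain_iff_getElem.1 h.chain i.val (by rw [hlen]; exact hi)
      exact this
    · have h1 : i.val + 1 = N := by have := i.isLt; omega
      have h2 : i.val = N - 1 := by omega
      rw [h1, h2, hfN, hfl]
      exact hc
  · intro i j hij
    simp only at hij
    rw [hprod _ (by have := i.isLt; omega), hprod _ (by have := j.isLt; omega)] at hij
    have h1 := mul_left_cancel hij
    -- injectivity of `f` on residues
    have hg : ∀ k : Fin N, f (k.val + 1) = l[(k.val + 1) % N]'(by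
        rw [hlen]; exact Nat.mod_lt _ hpos) := by
      intro k
      show l.getD ((k.val + 1) % N) 1 = _
      rw [List.getD_eq_getElem]
    rw [hg, hg] at h1
    have h2 := (List.Nodup.getElem_inj_iff h.nodup).1 h1
    apply Fin.ext
    have hi := i.isLt
    have hj := j.isLt
    by_cases hi' : i.val + 1 < N <;> by_cases hj' : j.val + 1 < N
    · rw [Nat.mod_eq_of_lt hi', Nat.mod_eq_of_lt hj'] at h2
      omega
    · have : j.val + 1 = N := by omega
      rw [this, Nat.mod_self, Nat.mod_eq_of_lt hi'] at h2
      omega
    · have : i.val + 1 = N := by omega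
      rw [this, Nat.mod_self, Nat.mod_eq_of_lt hj'] at h2
      omega
    · omega
  · have := hprod N le_rfl
    rw [List.take_of_length_le (by rw [List.length_ofFn])] at this
    rw [this, hfN, hf0, inv_mul_cancel]

theorem LP.length_eq {V : Type*} {R : V → V → Prop} {S : Set V} {x y : V} {l : List V}
    (h : LP R S x y l) : l.length = S.ncard := by
  classical
  rw [← List.toFinset_card_of_nodup h.nodup, ← Set.ncard_coe_finset]
  congr 1
  ext z
  rw [Finset.mem_coe, List.mem_toFinset]
  exact h.mem z

theorem closed_of_LP {G : Type*} [Group G] [Finite G] {A : Set G} {x y : G} {l : List G}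
    (h : LP (St A) Set.univ x y l) (hc : y⁻¹ * x ∈ A) : ∃ a, CL A a :=
  closed_of_LP_gen h hc (Nat.card G) (by rw [h.length_eq, Set.ncard_univ]) Nat.card_pos

theorem closed_sub {G : Type*} [Group G] {A : Set G} {H : Subgroup G} [Finite H] {x y : G}
    {l : List G} (h : LP (St A) (H : Set G) x y l) (hc : y⁻¹ * x ∈ A) :
    ∃ a : Fin (Nat.card H) → G, (∀ i, a i ∈ A) ∧
      Function.Injective (fun k : Fin (Nat.card H) => ((List.ofFn a).take (k.val + 1)).prod) ∧
      (List.ofFn a).prod = 1 :=
  closed_of_LP_gen h hc (Nat.card H) (by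
    rw [h.length_eq, ← Nat.card_coe_set_eq]; rfl) Nat.card_pos

/-- the end of a path which starts in `1` is a product of elements of `A` -/
theorem mem_closure_of_chain {G : Type*} [Group G] {A : Set G} (l : List G) :
    ∀ x : G, x ∈ Subgroup.closure A → (x :: l).IsChain (St A) →
      ∀ z ∈ x :: l, z ∈ Subgroup.closure A := by
  induction l with
  | nil =>
    intro x hx _ z hz
    rw [List.mem_singleton] at hz
    rw [hz]; exact hx
  | cons y l ih =>
    intro x hx hch z hz
    rw [List.isChain_cons_cons] at hch
    rcases List.mem_cons.1 hz with rfl | hz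
    · exact hx
    · refine ih y ?_ hch.2 z hz
      have : y = x * (x⁻¹ * y) := by rw [mul_inv_cancel_left]
      rw [this]
      exact Subgroup.mul_mem _ hx (Subgroup.subset_closure hch.1)

theorem closure_eq {G : Type*} [Group G] {A : Set G} {H : Subgroup G} (hAH : A ⊆ H) {y : G}
    {l : List G} (h : LP (St A) (H : Set G) 1 y l) : Subgroup.closure A = H := by
  apply le_antisymm
  · rwa [Subgroup.closure_le]
  · intro g hg
    have hl : g ∈ l := (h.mem g).2 hg
    cases l with
    | nil => simp at hl
    | cons x l =>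
      have h1 : x = 1 := by
        have := h.head
        rw [List.head?_cons] at this
        exact Option.some.inj this
      subst h1
      exact mem_closure_of_chain l 1 (Subgroup.one_mem _) h.chain g hl

theorem closed_of_HC {G : Type*} [Group G] [Finite G] {A : Set G}
    (h : HC A (⊤ : Subgroup G)) {c : G} (hc : c ∈ A) (hc1 : c ≠ 1) : ∃ a, CL A a := by
  obtain ⟨l, hl⟩ := h c (Subgroup.mem_top _) 1 (Subgroup.mem_top _) hc1
  exact closed_of_LP (hl.congr Subgroup.coe_top) (by rwa [inv_one, one_mul])

theorem closed_of_LC {G : Type*} [Group G] [Finite G] {A : Set G} {e : G →* ℤˣ}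
    (h : LC A e (⊤ : Subgroup G)) {c : G} (hc : c ∈ A) (hc1 : e c = -1) : ∃ a, CL A a := by
  obtain ⟨l, hl⟩ := h c (Subgroup.mem_top _) 1 (Subgroup.mem_top _) (by
    rw [hc1, map_one]; decide)
  exact closed_of_LP (hl.congr Subgroup.coe_top) (by rwa [inv_one, one_mul])

/-- two-transitive actions: the double coset of an element outside of the stabiliser -/
theorem deg_trans {G Ω : Type*} [Group G] [Finite G] [MulAction G Ω] (k : Ω) (c : G)
    (hc : c • k ≠ k)
    (h2 : ∀ a b : Ω, a ≠ k → b ≠ k → ∃ h : G, h • k = k ∧ h • a = b)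
    (h4 : 4 ≤ Nat.card Ω) (C : Set G) (hcC : c ∈ C) :
    Nat.card G + 2 * Nat.card (MulAction.stabilizer G k) ≤
      2 * (HCH (MulAction.stabilizer G k) C).ncard := by
  classical
  set H := MulAction.stabilizer G k with hH
  have hmem : ∀ g : G, g ∈ H ↔ g • k = k := fun g => MulAction.mem_stabilizer_iff
  have hfin : Finite Ω := Nat.finite_of_card_ne_zero (by omega)
  -- everything outside of `H`
  have h1 : (Set.univ : Set G) ⊆ HCH H C ∪ (H : Set G) := by
    intro g _
    by_cases hg : g ∈ H
    · right; exact hg
    · left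
      rw [hmem] at hg
      obtain ⟨h, hh, e⟩ := h2 (c • k) (g • k) hc hg
      refine ⟨h, (hmem h).2 hh, c, hcC, (h * c)⁻¹ * g, ?_, ?_⟩
      · rw [hmem, mul_smul, inv_smul_eq_iff, mul_smul, e]
      · rw [mul_inv_cancel_left]
  -- the orbit is everything
  have h3 : ∀ p : Ω, ∃ g : G, g • k = p := by
    intro p
    by_cases hp : p = k
    · exact ⟨1, by rw [hp, one_smul]⟩
    · obtain ⟨h, _, e⟩ := h2 (c • k) p hc hp
      exact ⟨h * c, by rw [mul_smul, e]⟩
  choose g hg using h3
  have h5 : Nat.card Ω * Nat.card H ≤ Nat.card G := by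
    rw [← Nat.card_prod]
    apply Nat.card_le_card_of_injective (fun p : Ω × H => g p.1 * p.2.1)
    rintro ⟨p, h⟩ ⟨p', h'⟩ e
    simp only at e
    have e1 : p = p' := by
      have := congrArg (fun z : G => z • k) e
      simp only [mul_smul] at this
      rwa [(hmem _).1 h.2, (hmem _).1 h'.2, hg, hg] at this
    subst e1
    rw [Subtype.ext (mul_left_cancel e)]
  have h6 := Set.ncard_le_ncard h1 (Set.toFinite _)
  have h7 := Set.ncard_union_le (HCH H C) (H : Set G)
  have h8 : (H : Set G).ncard = Nat.card H := by
    rw [← Nat.card_coe_set_eq]; rfl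
  rw [Set.ncard_univ] at h6
  have h9 : 4 * Nat.card H ≤ Nat.card G := le_trans (Nat.mul_le_mul_right _ h4) h5
  omega

end Pool.Agent.E8helper34.HC
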