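import Pool.Agent.E8helper34.HC.Step

/-!
The chain of symmetric groups: one level.
-/

set_option autoImplicit false
set_option linter.dupNamespace false

namespace Pool.Agent.E8helper34.HC

open Equiv

/-- the permutations which fix all letters from `j` on -/
def Sj (n j : ℕ) : Subgroup (Perm (Fin n)) where
  carrier := {π | ∀ i : Fin n, j ≤ i.val → π i = i}
  mul_mem' := by
    intro a b ha hb i hi
    rw [Perm.mul_apply, hb i hi, ha i hi]
  one_mem' := fun i _ => rfl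
  inv_mem' := by
    intro a ha i hi
    rw [Perm.inv_eq_iff_eq]
    exact (ha i hi).symm

theorem mem_Sj {n j : ℕ} {π : Perm (Fin n)} :
    π ∈ Sj n j ↔ ∀ i : Fin n, j ≤ i.val → π i = i := Iff.rfl

/-- the even ones -/
def Aj (n j : ℕ) : Subgroup (Perm (Fin n)) := Sj n j ⊓ alternatingGroup (Fin n)

theorem mem_Aj {n j : ℕ} {π : Perm (Fin n)} :
    π ∈ Aj n j ↔ π ∈ Sj n j ∧ Perm.sign π = 1 := by
  rw [Aj, Subgroup.mem_inf, Perm.mem_alternatingGroup]

theorem swap_mem_Sj {n j : ℕ} {a b : Fin n} (ha : a.val < j) (hb : b.val < j) :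
    swap a b ∈ Sj n j := by
  intro i hi
  apply swap_apply_of_ne_of_ne
  · rintro rfl; omega
  · rintro rfl; omega

theorem Sj_pres {n j : ℕ} {π : Perm (Fin n)} (h : π ∈ Sj n j) {i : Fin n} (hi : i.val < j) :
    (π i).val < j := by
  by_contra hcon
  push Not at hcon
  have h1 := h (π i) hcon
  have h2 := π.injective h1
  rw [h2] at hcon
  omega

/-- `H` is the stabiliser of the letter `k` in `K`, and it is transitive on the other letters -/
structure Lev (n j : ℕ) (k : Fin n) (H K : Subgroup (Perm (Fin n))) : Prop where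
  hk : k.val = j
  mem : ∀ π, π ∈ H ↔ π ∈ K ∧ π k = k
  pres : ∀ π ∈ K, ∀ i : Fin n, i.val ≤ j → (π i).val ≤ j
  tr : ∀ a b : Fin n, a.val < j → b.val < j → ∃ h ∈ H, h a = b

namespace Lev

variable {n j : ℕ} {k : Fin n} {H K : Subgroup (Perm (Fin n))} (L : Lev n j k H K)
include L

theorem HK : H ≤ K := fun π hπ => ((L.mem π).1 hπ).1

theorem img {c : Perm (Fin n)} (hc : c ∈ K) (hc' : c ∉ H) : (c k).val < j := by
  have h1 := L.pres c hc k (le_of_eq L.hk)
  have h2 : c k ≠ k := fun h => hc' ((L.mem c).2 ⟨hc, h⟩)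
  have h3 : (c k).val ≠ j := by
    intro h
    apply h2
    apply Fin.ext
    rw [h, L.hk]
  omega

theorem cover {c : Perm (Fin n)} (hc : c ∈ K) (hc' : c ∉ H) {g : Perm (Fin n)} (hg : g ∈ K)
    (hg' : g ∉ H) : ∃ h ∈ H, ∃ h' ∈ H, g = h * c * h' := by
  obtain ⟨h, hh, e⟩ := L.tr (c k) (g k) (L.img hc hc') (L.img hg hg')
  refine ⟨h, hh, (h * c)⁻¹ * g, ?_, ?_⟩
  · rw [L.mem]
    refine ⟨K.mul_mem (K.inv_mem (K.mul_mem (L.HK hh) hc)) hg, ?_⟩
    rw [Perm.mul_apply, Perm.inv_eq_iff_eq, Perm.mul_apply, e]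
  · rw [mul_inv_cancel_left]

theorem card4 (hj : 3 ≤ j) {c : Perm (Fin n)} (hc : c ∈ K) (hc' : c ∉ H) :
    4 * Nat.card H ≤ Nat.card K := by
  -- elements which map `k` to `0, 1, 2, k`
  have hjn : j < n := by have := k.isLt; rw [L.hk] at this; exact this
  have h1 : ∀ i : Fin 4, ∃ g ∈ K, g k = (if i.val = 3 then k else
      (⟨i.val, by have := i.isLt; omega⟩ : Fin n)) := by
    intro i
    by_cases h : i.val = 3
    · rw [if_pos h]
      exact ⟨1, K.one_mem, rfl⟩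
    · rw [if_neg h]
      obtain ⟨h, hh, e⟩ := L.tr (c k) (⟨i.val, by have := i.isLt; omega⟩ : Fin n)
        (L.img hc hc') (by have := i.isLt; show i.val < j; omega)
      exact ⟨h * c, K.mul_mem (L.HK hh) hc, e⟩
  choose g hgK hgk using h1
  let F : Fin 4 × H → K := fun p => ⟨g p.1 * p.2.1, K.mul_mem (hgK p.1) (L.HK p.2.2)⟩
  have hF : Function.Injective F := by
    rintro ⟨i, h⟩ ⟨i', h'⟩ e
    have e1 : g i * h.1 = g i' * h'.1 := congrArg Subtype.val e
    have e2 : g i k = g i' k := by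
      have := congrArg (fun π : Perm (Fin n) => π k) e1
      simp only [Perm.mul_apply] at this
      rwa [((L.mem _).1 h.2).2, ((L.mem _).1 h'.2).2] at this
    have e3 : i = i' := by
      rw [hgk, hgk] at e2
      have hkj := L.hk
      by_cases hi : i.val = 3 <;> by_cases hi' : i'.val = 3
      · exact Fin.ext (hi.trans hi'.symm)
      · rw [if_pos hi, if_neg hi'] at e2
        have := congrArg Fin.val e2
        simp only at this
        have := i'.isLt
        omega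
      · rw [if_neg hi, if_pos hi'] at e2
        have := congrArg Fin.val e2
        simp only at this
        have := i.isLt
        omega
      · rw [if_neg hi, if_neg hi'] at e2
        have := congrArg Fin.val e2
        simp only at this
        exact Fin.ext this
    subst e3
    have e4 : h.1 = h'.1 := mul_left_cancel e1
    rw [Subtype.ext e4]
  have h2 := Nat.card_le_card_of_injective F hF
  rw [Nat.card_prod, Nat.card_eq_fintype_card, Fintype.card_fin] at h2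
  exact h2

theorem deg (hj : 3 ≤ j) {c : Perm (Fin n)} (hc : c ∈ K) (hc' : c ∉ H) :
    Nat.card K + 2 * Nat.card H ≤ 2 * (HCH H {c, c⁻¹}).ncard := by
  have h4 := L.card4 hj hc hc'
  have h1 : (K : Set (Perm (Fin n))) ⊆ HCH H {c, c⁻¹} ∪ (H : Set (Perm (Fin n))) := by
    intro g hg
    by_cases hgH : g ∈ H
    · right; exact hgH
    · left
      obtain ⟨h, hh, h', hh', e⟩ := L.cover hc hc' hg hgH
      exact ⟨h, hh, c, by simp, h', hh', e⟩
  have h2 := Set.ncard_le_ncard h1 (Set.toFinite _)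
  have h3 := Set.ncard_union_le (HCH H {c, c⁻¹}) (H : Set (Perm (Fin n)))
  have h5 : (K : Set (Perm (Fin n))).ncard = Nat.card K := by
    rw [← Nat.card_coe_set_eq]; rfl
  have h6 : (H : Set (Perm (Fin n))).ncard = Nat.card H := by
    rw [← Nat.card_coe_set_eq]; rfl
  omega

theorem conj_mem {c h : Perm (Fin n)} (hc : c ∈ K) (hh : h ∈ H) (e : h (c k) = c k) :
    c⁻¹ * h * c ∈ H := by
  rw [L.mem]
  refine ⟨K.mul_mem (K.mul_mem (K.inv_mem hc) (L.HK hh)) hc, ?_⟩
  rw [Perm.mul_apply, Perm.mul_apply, e, Perm.inv_eq_iff_eq]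

end Lev

theorem exists_three {n j : ℕ} (hjn : j < n) (hj : 4 ≤ j) (p : Fin n) :
    ∃ x y z : Fin n, x.val < j ∧ y.val < j ∧ z.val < j ∧ x ≠ y ∧ y ≠ z ∧ x ≠ z ∧
      x ≠ p ∧ y ≠ p ∧ z ≠ p := by
  by_cases h0 : p.val = 0
  · refine ⟨⟨1, by omega⟩, ⟨2, by omega⟩, ⟨3, by omega⟩, ?_, ?_, ?_, ?_, ?_, ?_, ?_, ?_, ?_⟩
    all_goals simp only [ne_eq, Fin.ext_iff]; omega
  by_cases h1 : p.val = 1
  · refine ⟨⟨0, by omega⟩, ⟨2, by omega⟩, ⟨3, by omega⟩, ?_, ?_, ?_, ?_, ?_, ?_, ?_, ?_, ?_⟩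
    all_goals simp only [ne_eq, Fin.ext_iff]; omega
  by_cases h2 : p.val = 2
  · refine ⟨⟨0, by omega⟩, ⟨1, by omega⟩, ⟨3, by omega⟩, ?_, ?_, ?_, ?_, ?_, ?_, ?_, ?_, ?_⟩
    all_goals simp only [ne_eq, Fin.ext_iff]; omega
  · refine ⟨⟨0, by omega⟩, ⟨1, by omega⟩, ⟨2, by omega⟩, ?_, ?_, ?_, ?_, ?_, ?_, ?_, ?_, ?_⟩
    all_goals simp only [ne_eq, Fin.ext_iff]; omega

theorem Sj_mono {n j j' : ℕ} (h : j ≤ j') : Sj n j ≤ Sj n j' :=
  fun _ hπ i hi => hπ i (h.trans hi)

theorem mem_Sj_iff {n j : ℕ} (hjn : j < n) (π : Perm (Fin n)) :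
    π ∈ Sj n j ↔ π ∈ Sj n (j + 1) ∧ π ⟨j, hjn⟩ = ⟨j, hjn⟩ := by
  constructor
  · intro h
    exact ⟨Sj_mono (Nat.le_succ j) h, h _ le_rfl⟩
  · rintro ⟨h1, h2⟩ i hi
    rcases Nat.eq_or_lt_of_le hi with h3 | h3
    · have : i = ⟨j, hjn⟩ := Fin.ext h3.symm
      rw [this]; exact h2
    · exact h1 i h3

theorem levS {n j : ℕ} (hjn : j < n) : Lev n j ⟨j, hjn⟩ (Sj n j) (Sj n (j + 1)) := by
  refine ⟨rfl, mem_Sj_iff hjn, ?_, ?_⟩
  · intro π hπ i hi
    have := Sj_pres hπ (i := i) (by omega)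
    omega
  · intro a b ha hb
    exact ⟨swap a b, swap_mem_Sj ha hb, swap_apply_left a b⟩

theorem levA {n j : ℕ} (hjn : j < n) (hj : 3 ≤ j) :
    Lev n j ⟨j, hjn⟩ (Aj n j) (Aj n (j + 1)) := by
  refine ⟨rfl, ?_, ?_, ?_⟩
  · intro π
    rw [mem_Aj, mem_Aj, mem_Sj_iff hjn]
    tauto
  · intro π hπ i hi
    have := Sj_pres (mem_Aj.1 hπ).1 (i := i) (by omega)
    omega
  · intro a b ha hb
    by_cases hab : a = b
    · exact ⟨1, (Aj n j).one_mem, hab⟩
    · obtain ⟨d, hd, hda, hdb⟩ : ∃ d : Fin n, d.val < j ∧ d ≠ a ∧ d ≠ b := by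
        by_cases h0 : a.val ≠ 0 ∧ b.val ≠ 0
        · exact ⟨⟨0, by omega⟩, by simp only; omega, by
            simp only [ne_eq, Fin.ext_iff]; omega, by simp only [ne_eq, Fin.ext_iff]; omega⟩
        by_cases h1 : a.val ≠ 1 ∧ b.val ≠ 1
        · exact ⟨⟨1, by omega⟩, by simp only; omega, by
            simp only [ne_eq, Fin.ext_iff]; omega, by simp only [ne_eq, Fin.ext_iff]; omega⟩
        · exact ⟨⟨2, by omega⟩, by simp only; omega, by
            simp only [ne_eq, Fin.ext_iff]; omega, by simp only [ne_eq, Fin.ext_iff]; omega⟩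
      refine ⟨swap a b * swap b d, mem_Aj.2 ⟨(Sj n j).mul_mem (swap_mem_Sj ha hb)
        (swap_mem_Sj hb hd), ?_⟩, ?_⟩
      · rw [Perm.sign_mul, Perm.sign_swap hab, Perm.sign_swap (Ne.symm hdb)]
        rfl
      · rw [Perm.mul_apply, swap_apply_of_ne_of_ne hab (Ne.symm hda), swap_apply_left]

/-- three elements of the stabiliser of a point -/
theorem three {n j : ℕ} (hjn : j < n) (hj : 4 ≤ j) {k : Fin n} {H K : Subgroup (Perm (Fin n))}
    (L : Lev n j k H K) (hAH : Aj n j ≤ H) {c : Perm (Fin n)} (hc : c ∈ K) :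
    3 ≤ {h : Perm (Fin n) | h ∈ H ∧ c⁻¹ * h * c ∈ H}.ncard := by
  obtain ⟨x, y, z, hx, hy, hz, hxy, hyz, hxz, hxp, hyp, hzp⟩ := exists_three hjn hj (c k)
  let s : Perm (Fin n) := swap x y * swap y z
  have hsx : s x = y := by
    show (swap x y * swap y z) x = y
    rw [Perm.mul_apply, swap_apply_of_ne_of_ne hxy hxz, swap_apply_left]
  have hsz : s z = x := by
    show (swap x y * swap y z) z = x
    rw [Perm.mul_apply, swap_apply_right, swap_apply_right]
  have hsix : s⁻¹ x = z := by rw [Perm.inv_eq_iff_eq, hsz]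
  have hsp : s (c k) = c k := by
    show (swap x y * swap y z) (c k) = c k
    rw [Perm.mul_apply, swap_apply_of_ne_of_ne (Ne.symm hyp) (Ne.symm hzp),
      swap_apply_of_ne_of_ne (Ne.symm hxp) (Ne.symm hyp)]
  have hsip : s⁻¹ (c k) = c k := by rw [Perm.inv_eq_iff_eq, hsp]
  have hsA : s ∈ Aj n j := mem_Aj.2 ⟨(Sj n j).mul_mem (swap_mem_Sj hx hy) (swap_mem_Sj hy hz), by
    show Perm.sign (swap x y * swap y z) = 1
    rw [Perm.sign_mul, Perm.sign_swap hxy, Perm.sign_swap hyz]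
    rfl⟩
  have h1 : ({1, s, s⁻¹} : Set (Perm (Fin n))) ⊆ {h | h ∈ H ∧ c⁻¹ * h * c ∈ H} := by
    intro h hh
    simp only [Set.mem_insert_iff, Set.mem_singleton_iff] at hh
    rcases hh with rfl | rfl | rfl
    · exact ⟨H.one_mem, L.conj_mem hc H.one_mem rfl⟩
    · exact ⟨hAH hsA, L.conj_mem hc (hAH hsA) hsp⟩
    · exact ⟨H.inv_mem (hAH hsA), L.conj_mem hc (H.inv_mem (hAH hsA)) hsip⟩
  have h2 := Set.ncard_le_ncard h1 (Set.toFinite _)
  refine le_trans (le_of_eq ?_) h2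
  symm
  rw [Set.ncard_eq_three]
  refine ⟨1, s, s⁻¹, ?_, ?_, ?_, rfl⟩
  · intro h
    apply hxy
    rw [← hsx, ← h]; rfl
  · intro h
    apply hxz
    rw [← hsix, ← h]; rfl
  · intro h
    apply hyz
    rw [← hsix, ← h, hsx]

/-- one level, Hamilton-connected -/
theorem level_HC {n j : ℕ} (hjn : j < n) (hj : 4 ≤ j) {k : Fin n}
    {H K : Subgroup (Perm (Fin n))}
    (L : Lev n j k H K) (hAH : Aj n j ≤ H) {A : Set (Perm (Fin n))}
    (symA : ∀ a ∈ A, a⁻¹ ∈ A) {c : Perm (Fin n)} (hcA : c ∈ A) (hc : c ∈ K) (hc' : c ∉ H)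
    (hH : HC A H) : HC A K := by
  refine step_HC (C := {c, c⁻¹}) symA ?_ ?_ ?_ ?_ L.HK hH ?_ (L.deg (by omega) hc hc')
  · intro a ha
    simp only [Set.mem_insert_iff, Set.mem_singleton_iff] at ha
    rcases ha with rfl | rfl
    · exact hcA
    · exact symA _ hcA
  · intro a ha
    simp only [Set.mem_insert_iff, Set.mem_singleton_iff] at ha ⊢
    rcases ha with rfl | rfl
    · right; rfl
    · left; rw [inv_inv]
  · intro a ha
    simp only [Set.mem_insert_iff, Set.mem_singleton_iff] at ha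
    rcases ha with rfl | rfl
    · exact hc
    · exact K.inv_mem hc
  · intro a ha
    simp only [Set.mem_insert_iff, Set.mem_singleton_iff] at ha
    rcases ha with rfl | rfl
    · exact hc'
    · exact fun h => hc' (by simpa using H.inv_mem h)
  · intro a ha
    simp only [Set.mem_insert_iff, Set.mem_singleton_iff] at ha
    rcases ha with rfl | rfl
    · exact three hjn hj L hAH hc
    · exact three hjn hj L hAH (K.inv_mem hc)

/-- one level, Hamilton-laceable -/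
theorem level_LC {n j : ℕ} (hjn : j < n) (hj : 4 ≤ j) {A : Set (Perm (Fin n))}
    (symA : ∀ a ∈ A, a⁻¹ ∈ A) (odd : ∀ a ∈ A, Perm.sign a = -1)
    {c : Perm (Fin n)} (hcA : c ∈ A) (hc : c ∈ Sj n (j + 1)) (hc' : c ∉ Sj n j)
    (hH : LC A Perm.sign (Sj n j)) : LC A Perm.sign (Sj n (j + 1)) := by
  have L := levS hjn
  have key : ∀ c ∈ Sj n (j + 1), ∃ h ∈ Sj n j, Perm.sign h = -1 ∧ c⁻¹ * h * c ∈ Sj n j := by
    intro c hc
    obtain ⟨x, y, z, hx, hy, hz, hxy, hyz, hxz, hxp, hyp, hzp⟩ :=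
      exists_three hjn hj (c ⟨j, hjn⟩)
    refine ⟨swap x y, swap_mem_Sj hx hy, Perm.sign_swap hxy, ?_⟩
    exact L.conj_mem hc (swap_mem_Sj hx hy)
      (swap_apply_of_ne_of_ne (Ne.symm hxp) (Ne.symm hyp))
  refine step_LC (C := {c, c⁻¹}) symA odd ?_ ?_ ?_ ?_ L.HK hH ?_ (L.deg (by omega) hc hc')
  · intro a ha
    simp only [Set.mem_insert_iff, Set.mem_singleton_iff] at ha
    rcases ha with rfl | rfl
    · exact hcA
    · exact symA _ hcA
  · intro a ha
    simp only [Set.mem_insert_iff, Set.mem_singleton_iff] at ha ⊢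
    rcases ha with rfl | rfl
    · right; rfl
    · left; rw [inv_inv]
  · intro a ha
    simp only [Set.mem_insert_iff, Set.mem_singleton_iff] at ha
    rcases ha with rfl | rfl
    · exact hc
    · exact (Sj n (j + 1)).inv_mem hc
  · intro a ha
    simp only [Set.mem_insert_iff, Set.mem_singleton_iff] at ha
    rcases ha with rfl | rfl
    · exact hc'
    · exact fun h => hc' (by simpa using (Sj n j).inv_mem h)
  · intro a ha
    simp only [Set.mem_insert_iff, Set.mem_singleton_iff] at ha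
    rcases ha with rfl | rfl
    · exact key _ hc
    · exact key _ ((Sj n (j + 1)).inv_mem hc)

end Pool.Agent.E8helper34.HC
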