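import Pool.Agent.E8helper34.HC.Ore

/-!
Hamiltonian paths of Cayley graphs through the cosets of a subgroup.
-/

set_option autoImplicit false

namespace Pool.Agent.E8helper34.HC

variable {G : Type*} [Group G]

/-- one step in the Cayley graph -/
def St (A : Set G) (g h : G) : Prop := g⁻¹ * h ∈ A

/-- Hamilton-connectedness of the Cayley graph of `H` with the steps `A` -/
def HC (A : Set G) (H : Subgroup G) : Prop :=
  ∀ x ∈ H, ∀ y ∈ H, x ≠ y → ∃ l, LP (St A) (H : Set G) x y l

/-- Hamilton-laceability of the Cayley graph of `H` with the steps `A`, with respect to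
the sign `e` -/
def LC (A : Set G) (e : G →* ℤˣ) (H : Subgroup G) : Prop :=
  ∀ x ∈ H, ∀ y ∈ H, e x ≠ e y → ∃ l, LP (St A) (H : Set G) x y l

/-- the double coset set `H C H` -/
def HCH (H : Subgroup G) (C : Set G) : Set G :=
  {g | ∃ h ∈ H, ∃ c ∈ C, ∃ h' ∈ H, g = h * c * h'}

/-- The hypotheses: `Q x y` are the pairs which are joined by Hamiltonian paths. -/
structure Setup (A : Set G) (H K : Subgroup G) (C : Set G) (Q : G → G → Prop) : Prop where
  symA : ∀ a ∈ A, a⁻¹ ∈ A
  CA : C ⊆ A
  symC : ∀ c ∈ C, c⁻¹ ∈ C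
  CK : ∀ c ∈ C, c ∈ K
  CH : ∀ c ∈ C, c ∉ H
  HK : H ≤ K
  inv : ∀ g x y, Q x y → Q (g * x) (g * y)
  block : ∀ x ∈ H, ∀ y ∈ H, Q x y → ∃ l, LP (St A) (H : Set G) x y l
  link : ∀ x : G, ∀ c ∈ C, ∀ u v : G, (u : G ⧸ H) = x → Q u v → ∃ y : G, (y : G ⧸ H) = x ∧
    ((y * c : G) : G ⧸ H) = ((x * c : G) : G ⧸ H) ∧ Q u y ∧ Q (y * c) v
  adj : ∀ x x' : G, St A x x' → ∀ c ∈ C, ∀ c' ∈ C,
    ((x * c : G) : G ⧸ H) ≠ ((x' * c' : G) : G ⧸ H) → Q (x * c) (x' * c')
  deg : Nat.card K + 2 * Nat.card H ≤ 2 * (HCH H C).ncard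

/-- linked cosets -/
def Lk (H : Subgroup G) (C : Set G) (p q : G ⧸ H) : Prop :=
  ∃ x c : G, c ∈ C ∧ (x : G ⧸ H) = p ∧ ((x * c : G) : G ⧸ H) = q

theorem LP.translate {A : Set G} {S : Set G} {x y : G} {l : List G} (h : LP (St A) S x y l)
    (g : G) : LP (St A) {z | g⁻¹ * z ∈ S} (g * x) (g * y) (l.map (g * ·)) := by
  refine ⟨?_, ?_, ?_, ?_, ?_⟩
  · exact h.nodup.map (mul_right_injective g)
  · intro v
    rw [List.mem_map]
    constructor
    · rintro ⟨a, ha, rfl⟩
      show g⁻¹ * (g * a) ∈ S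
      rw [inv_mul_cancel_left]
      exact (h.mem a).1 ha
    · intro hv
      exact ⟨g⁻¹ * v, (h.mem _).2 hv, mul_inv_cancel_left g v⟩
  · rw [List.isChain_map]
    refine h.chain.imp ?_
    intro a b hab
    show (g * a)⁻¹ * (g * b) ∈ A
    rw [mul_inv_rev, mul_assoc, inv_mul_cancel_left]
    exact hab
  · rw [List.head?_map, h.head]; rfl
  · rw [List.getLast?_map, h.last]; rfl

namespace Setup

variable {A : Set G} {H K : Subgroup G} {C : Set G} {Q : G → G → Prop} (S : Setup A H K C Q)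

include S

theorem path_block (x y : G) (hxy : (x : G ⧸ H) = y) (hQ : Q x y) :
    ∃ l, LP (St A) {z : G | (z : G ⧸ H) = x} x y l := by
  have h1 : x⁻¹ * y ∈ H := QuotientGroup.eq.1 hxy
  have h2 : Q 1 (x⁻¹ * y) := by
    have := S.inv x⁻¹ x y hQ
    rwa [inv_mul_cancel] at this
  obtain ⟨l, hl⟩ := S.block 1 H.one_mem _ h1 h2
  refine ⟨l.map (x * ·), ?_⟩
  have := hl.translate x
  rw [mul_one, mul_inv_cancel_left] at this
  refine this.congr ?_
  ext z
  rw [Set.mem_ofPred_eq, Set.mem_ofPred_eq, SetLike.mem_coe, ← QuotientGroup.eq]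
  exact eq_comm

theorem lk_symm (p q : G ⧸ H) (h : Lk H C p q) : Lk H C q p := by
  obtain ⟨x, c, hc, h1, h2⟩ := h
  exact ⟨x * c, c⁻¹, S.symC c hc, h2, by rw [mul_inv_cancel_right]; exact h1⟩

theorem lk_irrefl (p : G ⧸ H) : ¬ Lk H C p p := by
  rintro ⟨x, c, hc, h1, h2⟩
  rw [← h1] at h2
  have := QuotientGroup.eq.1 h2.symm
  rw [inv_mul_cancel_left] at this
  exact S.CH c hc this

/-- Paths of cosets can be lifted. -/
theorem lift (P : List (G ⧸ H)) : ∀ (u v : G), P.Nodup → P.IsChain (Lk H C) →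
    P.head? = some (u : G ⧸ H) → P.getLast? = some (v : G ⧸ H) → Q u v →
    ∃ l, LP (St A) {x : G | (x : G ⧸ H) ∈ P} u v l := by
  induction P with
  | nil => intro u v _ _ h; simp at h
  | cons p P ih =>
    intro u v hnd hch hh hl hQ
    rw [List.head?_cons] at hh
    have hp : p = (u : G ⧸ H) := Option.some.inj hh
    subst hp
    cases P with
    | nil =>
      rw [List.getLast?_singleton] at hl
      have hv : (u : G ⧸ H) = v := Option.some.inj hl
      obtain ⟨l, hl⟩ := S.path_block u v hv hQ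
      exact ⟨l, hl.congr (by ext z; simp)⟩
    | cons q P =>
      rw [List.isChain_cons_cons] at hch
      obtain ⟨⟨x, c, hc, hx, hxc⟩, hch'⟩ := hch
      obtain ⟨y, hy, hyc, hQ1, hQ2⟩ := S.link x c hc u v hx.symm hQ
      rw [List.nodup_cons] at hnd
      have hl' : (q :: P).getLast? = some (v : G ⧸ H) := by
        rw [← hl, List.getLast?_cons_cons]
      obtain ⟨l2, h2⟩ := ih (y * c) v hnd.2 hch' (by rw [List.head?_cons, hyc, hxc]) hl' hQ2
      obtain ⟨l1, h1⟩ := S.path_block u y (by rw [hy, hx]) hQ1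
      refine ⟨l1 ++ l2, ?_⟩
      have h3 := h1.append h2 (by
        rw [Set.disjoint_left]
        intro z hz hz'
        rw [Set.mem_ofPred_eq] at hz hz'
        rw [hz] at hz'
        exact hnd.1 hz') (show y⁻¹ * (y * c) ∈ A by
          rw [inv_mul_cancel_left]; exact S.CA hc)
      refine h3.congr ?_
      ext z
      simp only [Set.mem_union, Set.mem_ofPred_eq, List.mem_cons]

end Setup

/-- if no consecutive pair satisfies the condition, all elements do what the first does -/
theorem exists_consecutive {V W : Type*} (R : V → V → Prop) (N : V → Set W) (l : List V)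
    (hch : l.IsChain R) (hN : ∀ x ∈ l, (N x).Nonempty)
    (h2 : ∃ x ∈ l, ∃ y ∈ l, ∃ a ∈ N x, ∃ b ∈ N y, a ≠ b) (hlen : 2 ≤ l.length) :
    ∃ s t x x' a b, l = s ++ x :: x' :: t ∧ R x x' ∧ a ∈ N x ∧ b ∈ N x' ∧ a ≠ b := by
  by_contra hno
  have main : ∀ l' : List V, ∀ s : List V, l = s ++ l' → 2 ≤ l'.length → l'.IsChain R →
      ∀ x, l'.head? = some x → ∀ a ∈ N x, ∀ y ∈ l', ∀ b ∈ N y, b = a := by
    intro l'
    induction l' with
    | nil => intro s _ h; simp at h
    | cons x0 l' ih =>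
      intro s hs hl' hc x hx a ha y hy b hb
      rw [List.head?_cons] at hx
      have hx0 : x0 = x := Option.some.inj hx
      subst hx0
      cases l' with
      | nil => simp at hl'
      | cons x1 l' =>
        rw [List.isChain_cons_cons] at hc
        have hmem1 : x1 ∈ l := by rw [hs]; simp
        have h1 : ∀ a' ∈ N x0, ∀ b' ∈ N x1, a' = b' := by
          intro a' ha' b' hb'
          by_contra hne
          exact hno ⟨s, l', x0, x1, a', b', hs, hc.1, ha', hb', hne⟩
        obtain ⟨b1, hb1⟩ := hN x1 hmem1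
        rcases List.mem_cons.1 hy with rfl | hy
        · rw [h1 b hb b1 hb1, h1 a ha b1 hb1]
        · by_cases hlen' : 2 ≤ (x1 :: l').length
          · have := ih (s ++ [x0]) (by rw [hs]; simp) hlen' hc.2 x1 rfl b1 hb1 y hy b hb
            rw [this, h1 a ha b1 hb1]
          · have : l' = [] := by
              cases l' with
              | nil => rfl
              | cons _ _ => simp at hlen'
            subst this
            rw [List.mem_singleton] at hy
            subst hy
            exact (h1 a ha b hb).symm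
  obtain ⟨x, hx, y, hy, a, ha, b, hb, hab⟩ := h2
  obtain ⟨x0, hx0⟩ : ∃ x0, l.head? = some x0 := by
    cases l with
    | nil => simp at hlen
    | cons c l => exact ⟨c, rfl⟩
  obtain ⟨a0, ha0⟩ := hN x0 (List.mem_of_head? hx0)
  have e1 := main l [] rfl hlen hch x0 hx0 a0 ha0 x hx a ha
  have e2 := main l [] rfl hlen hch x0 hx0 a0 ha0 y hy b hb
  exact hab (by rw [e1, e2])

theorem card_quot (H : Subgroup G) [Finite G] (T : Set (G ⧸ H)) :
    ((QuotientGroup.mk : G → G ⧸ H) ⁻¹' T).ncard = Nat.card H * T.ncard := by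
  rw [← Nat.card_coe_set_eq, ← Nat.card_coe_set_eq,
    Nat.card_congr (QuotientGroup.preimageMkEquivSubgroupProdSet H T), Nat.card_prod]

namespace Setup

variable {A : Set G} {H K : Subgroup G} {C : Set G} {Q : G → G → Prop} (S : Setup A H K C Q)

include S

open Classical in
/-- **Lifting Hamiltonian paths.** -/
theorem main [Finite G] (u v : G) (hu : u ∈ K) (hv : v ∈ K) (hQ : Q u v)
    (hQne : ∀ x y : G, Q x y → x ≠ y) :
    ∃ l, LP (St A) (K : Set G) u v l := by
  have := Fintype.ofFinite G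
  have : Finite (G ⧸ H) := inferInstance
  have : Fintype (G ⧸ H) := Fintype.ofFinite _
  have hHpos : 0 < Nat.card H := Nat.card_pos
  -- the cosets in `K`
  let U : Finset (G ⧸ H) := Finset.univ.filter fun p => ∃ x ∈ K, (x : G ⧸ H) = p
  have hU : ∀ x : G, ((x : G ⧸ H) ∈ U ↔ x ∈ K) := by
    intro x
    simp only [U, Finset.mem_filter, Finset.mem_univ, true_and]
    constructor
    · rintro ⟨y, hy, hxy⟩
      have h1 := QuotientGroup.eq.1 hxy
      have h2 := K.mul_mem hy (S.HK h1)
      rwa [mul_inv_cancel_left] at h2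
    · intro hx
      exact ⟨x, hx, rfl⟩
  have hUcard : Nat.card H * U.card = Nat.card K := by
    have h1 := card_quot H (U : Set (G ⧸ H))
    rw [Set.ncard_coe_finset] at h1
    rw [← h1, ← SetLike.coe_sort_coe, Nat.card_coe_set_eq]
    congr 1
    ext x
    exact hU x
  -- degrees
  let D : ℕ := (Finset.univ.filter fun p : G ⧸ H => Lk H C ((1 : G) : G ⧸ H) p).card
  have hlk : ∀ g x : G, Lk H C (g : G ⧸ H) (x : G ⧸ H) ↔ g⁻¹ * x ∈ HCH H C := by
    intro g x
    constructor
    · rintro ⟨y, c, hc, h1, h2⟩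
      have e1 := QuotientGroup.eq.1 h1.symm
      have e2 := QuotientGroup.eq.1 h2
      refine ⟨g⁻¹ * y, e1, c, hc, (y * c)⁻¹ * x, e2, ?_⟩
      group
    · rintro ⟨h, hh, c, hc, h', hh', e⟩
      refine ⟨g * h, c, hc, ?_, ?_⟩
      · rw [QuotientGroup.mk_mul_of_mem _ hh]
      · have : x = g * h * c * h' := by
          rw [← mul_inv_cancel_left g x, e]
          group
        rw [this, QuotientGroup.mk_mul_of_mem _ hh']
  have hDcard : Nat.card H * D = (HCH H C).ncard := by
    have h1 := card_quot H ((Finset.univ.filter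
      fun p : G ⧸ H => Lk H C ((1 : G) : G ⧸ H) p : Finset (G ⧸ H)) : Set (G ⧸ H))
    rw [Set.ncard_coe_finset] at h1
    rw [← h1]
    congr 1
    ext x
    rw [Set.mem_preimage, Finset.mem_coe, Finset.mem_filter, hlk, inv_one, one_mul]
    simp
  have hdegU : ∀ g ∈ K, D ≤ (U.filter fun q => Lk H C q (g : G ⧸ H)).card := by
    intro g hg
    have hinj : Function.Injective (fun p : G ⧸ H => g • p) := MulAction.injective g
    refine Finset.card_le_card_of_injOn (fun p => g • p) ?_ (hinj.injOn)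
    intro p hp
    rw [Finset.mem_coe, Finset.mem_filter] at hp
    rw [Finset.mem_coe, Finset.mem_filter]
    obtain ⟨x, rfl⟩ := QuotientGroup.mk_surjective p
    have h1 := (hlk 1 x).1 hp.2
    rw [inv_one, one_mul] at h1
    have hxK : x ∈ K := by
      obtain ⟨h, hh, c, hc, h', hh', e⟩ := h1
      rw [e]
      exact K.mul_mem (K.mul_mem (S.HK hh) (S.CK c hc)) (S.HK hh')
    have e : g • (x : G ⧸ H) = ((g * x : G) : G ⧸ H) := rfl
    simp only [e]
    refine ⟨(hU _).2 (K.mul_mem hg hxK), ?_⟩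
    apply S.lk_symm
    rw [hlk, inv_mul_cancel_left]
    exact h1
  have hn2 : U.card + 2 ≤ 2 * D := by
    have h1 := S.deg
    rw [← hUcard, ← hDcard] at h1
    have h2 : Nat.card H * (U.card + 2) ≤ Nat.card H * (2 * D) := by nlinarith
    exact Nat.le_of_mul_le_mul_left h2 hHpos
  have hmemK : ∀ z : G, z ∈ ({x : G | (x : G ⧸ H) ∈ U} : Set G) ↔ z ∈ (K : Set G) := by
    intro z
    exact hU z
  by_cases hpq : (u : G ⧸ H) = v
  · -- the same coset
    obtain ⟨l, hl⟩ := S.path_block u v hpq hQ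
    have hlen : 2 ≤ l.length := by
      have huv := hQne u v hQ
      by_contra hcon
      have h1 : u ∈ l := List.mem_of_head? hl.head
      have h2 : v ∈ l := List.mem_of_getLast? hl.last
      match l, hcon with
      | [], _ => simp at h1
      | [a], _ =>
        rw [List.mem_singleton] at h1 h2
        exact huv (h1.trans h2.symm)
      | _ :: _ :: _, hcon => simp at hcon
    have hD2 : 2 ≤ D := by
      have : 1 ≤ U.card := Finset.card_pos.2 ⟨(u : G ⧸ H), (hU u).2 hu⟩
      omega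
    obtain ⟨c0, hc0⟩ : ∃ c, c ∈ C := by
      have : 0 < D := by omega
      obtain ⟨p, hp⟩ := Finset.card_pos.1 this
      obtain ⟨x, c, hc, _⟩ := (Finset.mem_filter.1 hp).2
      exact ⟨c, hc⟩
    let N : G → Set (G ⧸ H) := fun x => {q | ∃ c ∈ C, ((x * c : G) : G ⧸ H) = q}
    obtain ⟨s, t, x, x', a, b, hsplit, hxx', ha, hb, hab⟩ :=
      exists_consecutive (St A) N l hl.chain (fun x _ => ⟨_, c0, hc0, rfl⟩) (by
        have h2 : 2 ≤ (U.filter fun q => Lk H C q (u : G ⧸ H)).card := le_trans hD2 (hdegU u hu)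
        obtain ⟨a, ha, b, hb, hab⟩ := Finset.one_lt_card.1 (lt_of_lt_of_le one_lt_two h2)
        obtain ⟨x, c, hc, hx, hxc⟩ := S.lk_symm _ _ (Finset.mem_filter.1 ha).2
        obtain ⟨y, c', hc', hy, hyc'⟩ := S.lk_symm _ _ (Finset.mem_filter.1 hb).2
        exact ⟨x, (hl.mem x).2 hx, y, (hl.mem y).2 hy, a, ⟨c, hc, hxc⟩, b, ⟨c', hc', hyc'⟩, hab⟩)
        hlen
    obtain ⟨c, hc, rfl⟩ := ha
    obtain ⟨c', hc', rfl⟩ := hb
    have hxl : x ∈ l := by rw [hsplit]; simp
    have hx'l : x' ∈ l := by rw [hsplit]; simp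
    have hxu : (x : G ⧸ H) = u := (hl.mem x).1 hxl
    have hx'u : (x' : G ⧸ H) = u := (hl.mem x').1 hx'l
    have hxK : x ∈ K := by rw [← hU, hxu, hU]; exact hu
    have hx'K : x' ∈ K := by rw [← hU, hx'u, hU]; exact hu
    -- the other cosets
    let W : Finset (G ⧸ H) := U.erase (u : G ⧸ H)
    have huU : (u : G ⧸ H) ∈ U := (hU u).2 hu
    have hWcard : W.card + 1 = U.card := Finset.card_erase_add_one huU
    have hneq : ∀ z : G, (z : G ⧸ H) = u → ∀ c ∈ C, ((z * c : G) : G ⧸ H) ≠ u := by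
      intro z hz c hc h
      exact S.lk_irrefl u ⟨z, c, hc, hz, h⟩
    obtain ⟨P, hP⟩ := ore (Lk H C) (fun p q h => S.lk_symm p q h) (fun p => S.lk_irrefl p) W
      (D - 1) (by
        intro p hp
        obtain ⟨g, rfl⟩ := QuotientGroup.mk_surjective p
        have hpU := (Finset.mem_erase.1 hp).2
        have h1 := hdegU g ((hU g).1 hpU)
        have h2 : (U.filter fun q => Lk H C q (g : G ⧸ H)) ⊆
            insert (u : G ⧸ H) (W.filter fun q => Lk H C q (g : G ⧸ H)) := by
          intro q hq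
          rw [Finset.mem_filter] at hq
          rw [Finset.mem_insert]
          by_cases hqu : q = (u : G ⧸ H)
          · left; exact hqu
          · right
            rw [Finset.mem_filter]
            exact ⟨Finset.mem_erase.2 ⟨hqu, hq.1⟩, hq.2⟩
        have h3 := Finset.card_le_card h2
        have h4 := Finset.card_insert_le (u : G ⧸ H)
          (W.filter fun q => Lk H C q (g : G ⧸ H))
        omega) (by omega)
      (p := ((x * c : G) : G ⧸ H)) (q := ((x' * c' : G) : G ⧸ H))
      (Finset.mem_erase.2 ⟨hneq x hxu c hc, (hU _).2 (K.mul_mem hxK (S.CK c hc))⟩)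
      (Finset.mem_erase.2 ⟨hneq x' hx'u c' hc', (hU _).2 (K.mul_mem hx'K (S.CK c' hc'))⟩) hab
    obtain ⟨m, hm⟩ := S.lift P (x * c) (x' * c') hP.nodup hP.chain hP.head hP.last
      (S.adj x x' hxx' c hc c' hc' hab)
    -- cut the path at `x, x'`
    have hpre : LP (St A) {z | z ∈ s ++ [x]} u x (s ++ [x]) := by
      have hnd := hl.nodup
      have hch := hl.chain
      have hhd := hl.head
      have e : l = (s ++ [x]) ++ x' :: t := by rw [hsplit]; simp
      rw [e] at hnd hch hhd
      refine ⟨(List.nodup_append.1 hnd).1, fun v => Iff.rfl, (List.isChain_append.1 hch).1, ?_, ?_⟩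
      · rw [← hhd]
        cases s <;> simp
      · simp
    have hsuf : LP (St A) {z | z ∈ x' :: t} x' v (x' :: t) := by
      have hnd := hl.nodup
      have hch := hl.chain
      have hla := hl.last
      have e : l = (s ++ [x]) ++ x' :: t := by rw [hsplit]; simp
      rw [e] at hnd hch hla
      refine ⟨(List.nodup_append.1 hnd).2.1, fun v => Iff.rfl, (List.isChain_append.1 hch).2.1,
        rfl, ?_⟩
      rw [List.getLast?_append] at hla
      rw [← hla]
      simp [List.getLast?_cons]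
    have hPW : ∀ z : G, ((z : G ⧸ H) ∈ P ↔ z ∈ K ∧ (z : G ⧸ H) ≠ u) := by
      intro z
      rw [hP.mem, Finset.mem_coe, Finset.mem_erase, hU]
      exact and_comm
    have hd1 : Disjoint {z | z ∈ s ++ [x]} {z : G | (z : G ⧸ H) ∈ P} := by
      rw [Set.disjoint_left]
      intro z hz hz'
      rw [Set.mem_ofPred_eq] at hz hz'
      have hzl : z ∈ l := by
        rw [hsplit]
        simp only [List.mem_append, List.mem_cons] at hz ⊢
        tauto
      exact ((hPW z).1 hz').2 ((hl.mem z).1 hzl)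
    have h12 := hpre.append hm hd1 (show x⁻¹ * (x * c) ∈ A by
      rw [inv_mul_cancel_left]; exact S.CA hc)
    have hd2 : Disjoint ({z | z ∈ s ++ [x]} ∪ {z : G | (z : G ⧸ H) ∈ P}) {z | z ∈ x' :: t} := by
      rw [Set.disjoint_left]
      intro z hz hz'
      rw [Set.mem_ofPred_eq] at hz'
      have hzl : z ∈ l := by
        rw [hsplit]
        simp only [List.mem_append, List.mem_cons] at hz' ⊢
        tauto
      rcases hz with hz | hz
      · rw [Set.mem_ofPred_eq] at hz
        have hnd := hl.nodup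
        have e : l = (s ++ [x]) ++ x' :: t := by rw [hsplit]; simp
        rw [e, List.nodup_append] at hnd
        exact hnd.2.2 z hz z hz' rfl
      · rw [Set.mem_ofPred_eq] at hz
        exact ((hPW z).1 hz).2 ((hl.mem z).1 hzl)
    have h123 := h12.append hsuf hd2 (show (x' * c')⁻¹ * x' ∈ A by
      rw [mul_inv_rev, mul_assoc, inv_mul_cancel, mul_one]
      exact S.symA _ (S.CA hc'))
    refine ⟨_, h123.congr ?_⟩
    ext z
    rw [Set.mem_union, Set.mem_union, Set.mem_ofPred_eq, Set.mem_ofPred_eq, Set.mem_ofPred_eq,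
      hPW, SetLike.mem_coe]
    have hz1 : z ∈ l ↔ (z : G ⧸ H) = u := hl.mem z
    have hz2 : z ∈ l ↔ (z ∈ s ++ [x] ∨ z ∈ x' :: t) := by
      rw [hsplit]
      simp only [List.mem_append, List.mem_cons]
      tauto
    have hz3 : (z : G ⧸ H) = u → z ∈ K := by
      intro h
      rw [← hU, h, hU]
      exact hu
    tauto
  · -- different cosets
    obtain ⟨P, hP⟩ := ore (Lk H C) (fun p q h => S.lk_symm p q h) (fun p => S.lk_irrefl p) U D
      (by
        intro p hp
        obtain ⟨g, rfl⟩ := QuotientGroup.mk_surjective p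
        exact hdegU g ((hU g).1 hp)) (by omega) ((hU u).2 hu) ((hU v).2 hv) hpq
    obtain ⟨l, hl⟩ := S.lift P u v hP.nodup hP.chain hP.head hP.last hQ
    refine ⟨l, hl.congr ?_⟩
    ext z
    rw [Set.mem_ofPred_eq, hP.mem, Finset.mem_coe, hU, SetLike.mem_coe]

end Setup

end Pool.Agent.E8helper34.HC
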