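import Mathlib

/-!
Lists as Hamiltonian paths; a graph in which every degree is more than half of the number of
vertices is Hamilton-connected (Ore), by exchanging two edges (reversing a segment).
-/

set_option autoImplicit false

namespace Pool.Agent.E8helper34.HC

variable {V : Type*}

/-- The list `l` is a path for the relation `R` from `x` to `y` whose vertices are the elements
of `S`. -/
structure LP (R : V → V → Prop) (S : Set V) (x y : V) (l : List V) : Prop where
  nodup : l.Nodup
  mem : ∀ v, v ∈ l ↔ v ∈ S
  chain : l.IsChain R
  head : l.head? = some x
  last : l.getLast? = some y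

theorem LP.single (R : V → V → Prop) (x : V) : LP R {x} x x [x] :=
  ⟨by simp, by simp, by simp, rfl, rfl⟩

theorem LP.head_mem {R : V → V → Prop} {S : Set V} {x y : V} {l : List V} (h : LP R S x y l) :
    x ∈ S := (h.mem x).1 (List.mem_of_head? h.head)

theorem LP.last_mem {R : V → V → Prop} {S : Set V} {x y : V} {l : List V} (h : LP R S x y l) :
    y ∈ S := (h.mem y).1 (List.mem_of_getLast? h.last)

theorem LP.append {R : V → V → Prop} {S T : Set V} {x y z w : V} {l m : List V}
    (h : LP R S x y l) (k : LP R T z w m) (hd : Disjoint S T) (hyz : R y z) :
    LP R (S ∪ T) x w (l ++ m) := by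
  refine ⟨?_, ?_, ?_, ?_, ?_⟩
  · rw [List.nodup_append]
    refine ⟨h.nodup, k.nodup, ?_⟩
    intro a ha b hb hab
    subst hab
    exact Set.disjoint_left.1 hd ((h.mem a).1 ha) ((k.mem a).1 hb)
  · intro v
    rw [List.mem_append, h.mem, k.mem, Set.mem_union]
  · rw [List.isChain_append]
    refine ⟨h.chain, k.chain, ?_⟩
    intro a ha b hb
    rw [h.last] at ha
    rw [k.head] at hb
    cases ha
    cases hb
    exact hyz
  · rw [List.head?_append, h.head]; rfl
  · rw [List.getLast?_append, k.last]; rfl

theorem LP.congr {R : V → V → Prop} {S T : Set V} {x y : V} {l : List V}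
    (h : LP R S x y l) (hST : S = T) : LP R T x y l := hST ▸ h

/-- number of consecutive pairs not in `R` -/
def bad (R : V → V → Prop) [DecidableRel R] : List V → ℕ
  | [] => 0
  | [_] => 0
  | x :: y :: t => (if R x y then 0 else 1) + bad R (y :: t)

variable (R : V → V → Prop) [DecidableRel R]

theorem bad_append (s t : List V) (x : V) :
    bad R (s ++ x :: t) = bad R (s ++ [x]) + bad R (x :: t) := by
  induction s with
  | nil => simp [bad]
  | cons a s ih =>
    cases s with
    | nil => simp [bad]
    | cons b s =>
      simp only [List.cons_append, bad] at ih ⊢
      rw [ih]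
      ring

theorem bad_two (x y : V) : bad R [x, y] = if R x y then 0 else 1 := by simp [bad]

theorem bad_reverse (hs : ∀ x y, R x y → R y x) (l : List V) : bad R l.reverse = bad R l := by
  induction l with
  | nil => rfl
  | cons a s ih =>
    cases s with
    | nil => rfl
    | cons b s =>
      rw [List.reverse_cons, List.reverse_cons, List.append_assoc]
      rw [show ([b] ++ [a] : List V) = b :: [a] from rfl, bad_append, bad_two]
      rw [List.reverse_cons] at ih
      rw [ih]
      show _ = (if R a b then 0 else 1) + bad R (b :: s)
      have : (if R b a then 0 else 1) = (if R a b then 0 else 1 : ℕ) := by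
        by_cases h : R a b
        · rw [if_pos h, if_pos (hs _ _ h)]
        · rw [if_neg h, if_neg (fun h' => h (hs _ _ h'))]
      rw [this]
      ring

theorem chain_of_bad (l : List V) (h : bad R l = 0) : l.IsChain R := by
  induction l with
  | nil => simp
  | cons a s ih =>
    cases s with
    | nil => simp
    | cons b s =>
      have h' : (if R a b then 0 else 1) + bad R (b :: s) = 0 := h
      have h1 : bad R (b :: s) = 0 := by omega
      have h2 : R a b := by
        by_contra hn
        rw [if_neg hn] at h'
        omega
      rw [List.isChain_cons_cons]
      exact ⟨h2, ih h1⟩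

theorem split_of_bad (l : List V) (h : bad R l ≠ 0) :
    ∃ s t x y, l = s ++ x :: y :: t ∧ ¬ R x y := by
  induction l with
  | nil => exact absurd rfl h
  | cons a s ih =>
    cases s with
    | nil => exact absurd rfl h
    | cons b s =>
      by_cases hab : R a b
      · have h' : (if R a b then 0 else 1) + bad R (b :: s) ≠ 0 := h
        rw [if_pos hab, zero_add] at h'
        obtain ⟨s', t, x, y, h1, h2⟩ := ih h'
        exact ⟨a :: s', t, x, y, by rw [h1]; rfl, h2⟩
      · exact ⟨[], s, a, b, rfl, hab⟩

/-- reversing a segment -/
theorem flip_lt (hs : ∀ x y, R x y → R y x) (s m t : List V) (a b x y : V)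
    (h : ¬ (R a b ∧ R x y)) (h1 : R a x) (h2 : R b y) :
    bad R (s ++ a :: (b :: (m ++ [x])).reverse ++ y :: t) <
      bad R (s ++ a :: b :: (m ++ x :: y :: t)) := by
  have e1 : bad R (s ++ a :: b :: (m ++ x :: y :: t)) =
      bad R (s ++ [a]) + (if R a b then 0 else 1) + bad R (b :: (m ++ [x])) +
        (if R x y then 0 else 1) + bad R (y :: t) := by
    rw [bad_append]
    have e2 : bad R (a :: b :: (m ++ x :: y :: t)) =
        (if R a b then 0 else 1) + bad R (b :: (m ++ x :: y :: t)) := rfl
    have e3 : bad R (b :: (m ++ x :: y :: t)) = bad R (b :: (m ++ [x])) + bad R (x :: y :: t) := by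
      have := bad_append R (b :: m) (y :: t) x
      simpa using this
    have e4 : bad R (x :: y :: t) = (if R x y then 0 else 1) + bad R (y :: t) := rfl
    rw [e2, e3, e4]
    ring
  have e5 : bad R (s ++ a :: (b :: (m ++ [x])).reverse ++ y :: t) =
      bad R (s ++ [a]) + 0 + bad R (b :: (m ++ [x])) + 0 + bad R (y :: t) := by
    have hrev : (b :: (m ++ [x])).reverse = x :: (m.reverse ++ [b]) := by simp
    rw [hrev]
    have f1 : s ++ a :: (x :: (m.reverse ++ [b])) ++ y :: t =
        s ++ a :: (x :: (m.reverse ++ b :: y :: t)) := by simp
    rw [f1, bad_append]
    have f2 : bad R (a :: x :: (m.reverse ++ b :: y :: t)) =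
        (if R a x then 0 else 1) + bad R (x :: (m.reverse ++ b :: y :: t)) := rfl
    have f3 : bad R (x :: (m.reverse ++ b :: y :: t)) =
        bad R (x :: (m.reverse ++ [b])) + bad R (b :: y :: t) := by
      have := bad_append R (x :: m.reverse) (y :: t) b
      simpa using this
    have f4 : bad R (b :: y :: t) = (if R b y then 0 else 1) + bad R (y :: t) := rfl
    have f5 : bad R (x :: (m.reverse ++ [b])) = bad R (b :: (m ++ [x])) := by
      rw [← bad_reverse R hs (b :: (m ++ [x])), hrev]
    rw [f2, f3, f4, f5, if_pos h1, if_pos h2]
    ring
  rw [e1, e5]
  by_cases hab : R a b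
  · have hxy : ¬ R x y := fun h' => h ⟨hab, h'⟩
    rw [if_neg hxy, if_pos hab]
    omega
  · rw [if_neg hab]
    omega

/-- consecutive pairs -/
def prs (l : List V) : List (V × V) := l.zip l.tail

theorem prs_mem {l : List V} {a b : V} (h : (a, b) ∈ prs l) : ∃ s t, l = s ++ a :: b :: t := by
  induction l with
  | nil => simp [prs] at h
  | cons c l ih =>
    cases l with
    | nil => simp [prs] at h
    | cons d l =>
      have h' : (a, b) ∈ (c, d) :: prs (d :: l) := h
      rw [List.mem_cons] at h'
      rcases h' with h' | h'
      · cases h'
        exact ⟨[], l, rfl⟩
      · obtain ⟨s, t, e⟩ := ih h'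
        exact ⟨c :: s, t, by rw [e]; rfl⟩

theorem mem_prs (s t : List V) (a b : V) : (a, b) ∈ prs (s ++ a :: b :: t) := by
  induction s with
  | nil => simp [prs]
  | cons c s ih =>
    cases s with
    | nil => simp [prs]
    | cons d s =>
      have : prs (c :: d :: s ++ a :: b :: t) = (c, d) :: prs (d :: s ++ a :: b :: t) := rfl
      rw [this]
      exact List.mem_cons_of_mem _ ih

theorem countP_prs_fst (P : V → Bool) (l : List V) :
    (prs l).countP (fun z => P z.1) = l.dropLast.countP P := by
  induction l with
  | nil => rfl
  | cons c l ih =>
    cases l with
    | nil => rfl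
    | cons d l =>
      have e : prs (c :: d :: l) = (c, d) :: prs (d :: l) := rfl
      rw [e, List.countP_cons, ih]
      show _ = (c :: (d :: l).dropLast).countP P
      rw [List.countP_cons]

theorem countP_prs_snd (P : V → Bool) (l : List V) :
    (prs l).countP (fun z => P z.2) = l.tail.countP P := by
  induction l with
  | nil => rfl
  | cons c l ih =>
    cases l with
    | nil => rfl
    | cons d l =>
      have e : prs (c :: d :: l) = (c, d) :: prs (d :: l) := rfl
      rw [e, List.countP_cons, ih]
      show _ = (d :: l).countP P
      rw [List.countP_cons]
      rfl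

theorem length_prs (l : List V) : (prs l).length = l.length - 1 := by
  unfold prs
  rw [List.length_zip, List.length_tail]
  omega

theorem countP_disj {α : Type*} (P Q : α → Bool) (l : List α) (z : α) (hz : z ∈ l)
    (hzP : P z = false) (hzQ : Q z = false) (h : ∀ w ∈ l, ¬ (P w = true ∧ Q w = true)) :
    l.countP P + l.countP Q + 1 ≤ l.length := by
  induction l with
  | nil => simp at hz
  | cons c l ih =>
    rw [List.countP_cons, List.countP_cons, List.length_cons]
    have hc := h c (by simp)
    have hgen : l.countP P + l.countP Q ≤ l.length := by
      clear ih hz
      have h' : ∀ w ∈ l, ¬ (P w = true ∧ Q w = true) := fun w hw => h w (by simp [hw])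
      clear h
      induction l with
      | nil => simp
      | cons e l ih =>
        rw [List.countP_cons, List.countP_cons, List.length_cons]
        have := ih (fun w hw => h' w (by simp [hw]))
        have he := h' e (by simp)
        cases hPe : P e <;> cases hQe : Q e <;> simp_all <;> omega
    rcases List.mem_cons.1 hz with rfl | hz
    · rw [hzP, hzQ]
      simp
      omega
    · have := ih hz (fun w hw => h w (by simp [hw]))
      cases hPe : P c <;> cases hQe : Q c <;> simp_all <;> omega

theorem countP_eq_card [DecidableEq V] {U : Finset V} {l : List V} (hn : l.Nodup)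
    (hm : ∀ v, v ∈ l ↔ v ∈ U) (P : V → Prop) [DecidablePred P] :
    l.countP (fun v => decide (P v)) = (U.filter P).card := by
  have h : (l.filter (fun v => decide (P v))).toFinset = U.filter P := by
    ext v
    simp [hm]
  rw [← h, List.toFinset_card_of_nodup (hn.filter _), List.countP_eq_length_filter]

/-- A graph on `U` in which `2 * degree ≥ |U| + 1` is Hamilton-connected. -/
theorem ore [DecidableEq V] (hs : ∀ x y, R x y → R y x) (hirr : ∀ x, ¬ R x x) (U : Finset V)
    (d : ℕ) (hd : ∀ x ∈ U, d ≤ (U.filter (fun y => R y x)).card) (h2 : U.card + 1 ≤ 2 * d)
    {p q : V} (hp : p ∈ U) (hq : q ∈ U) (hpq : p ≠ q) :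
    ∃ l, LP R (U : Set V) p q l := by
  have key : ∀ k : ℕ, ∀ l : List V, l.Nodup → (∀ v, v ∈ l ↔ v ∈ U) → l.head? = some p →
      l.getLast? = some q → bad R l = k → ∃ l, LP R (U : Set V) p q l := by
    intro k
    induction k using Nat.strong_induction_on with
    | _ k ih =>
      intro l hn hm hh hl hb
      by_cases hk : k = 0
      · exact ⟨l, hn, fun v => by rw [hm]; rfl, chain_of_bad R l (by omega), hh, hl⟩
      · obtain ⟨s, t, x, y, hsplit, hxy⟩ := split_of_bad R l (by omega)
        have hxm : x ∈ U := (hm x).1 (by rw [hsplit]; simp)
        have hym : y ∈ U := (hm y).1 (by rw [hsplit]; simp)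
        have hlen : l.length = U.card := by
          have : l.toFinset = U := by ext v; simp [hm]
          rw [← this, List.toFinset_card_of_nodup hn]
        -- the number of neighbours
        have c1 : d ≤ (prs l).countP (fun z => decide (R z.1 x)) + 1 := by
          have e := countP_prs_fst (fun v => decide (R v x)) l
          rw [e]
          have h1 := countP_eq_card hn hm (fun v => R v x)
          have h2 : l.countP (fun v => decide (R v x)) ≤
              l.dropLast.countP (fun v => decide (R v x)) + 1 := by
            have hne : l ≠ [] := by rintro rfl; simp at hh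
            conv_lhs => rw [← List.dropLast_append_getLast hne]
            rw [List.countP_append]
            have : [l.getLast hne].countP (fun v => decide (R v x)) ≤ 1 := by
              have := List.countP_le_length (l := [l.getLast hne])
                (p := fun v => decide (R v x))
              simpa using this
            omega
          have h3 := hd x hxm
          omega
        have c2 : d ≤ (prs l).countP (fun z => decide (R z.2 y)) + 1 := by
          have e := countP_prs_snd (fun v => decide (R v y)) l
          rw [e]
          have h1 := countP_eq_card hn hm (fun v => R v y)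
          have h2 : l.countP (fun v => decide (R v y)) ≤
              l.tail.countP (fun v => decide (R v y)) + 1 := by
            cases l with
            | nil => simp
            | cons c l =>
              rw [List.countP_cons]
              simp only [List.tail_cons]
              split <;> omega
          have h3 := hd y hym
          omega
        obtain ⟨⟨a, b⟩, hab, ha, hb'⟩ : ∃ z ∈ prs l, R z.1 x ∧ R z.2 y := by
          by_contra hno
          push Not at hno
          have h3 := countP_disj (fun z : V × V => decide (R z.1 x))
            (fun z : V × V => decide (R z.2 y)) (prs l) (x, y)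
            (by rw [hsplit]; exact mem_prs s t x y) (by simp [hirr]) (by simp [hirr])
            (by
              rintro z hz ⟨h1, h2⟩
              exact hno z hz (by simpa using h1) (by simpa using h2))
          rw [length_prs, hlen] at h3
          omega
        simp only at ha hb'
        obtain ⟨s', t', hsplit'⟩ := prs_mem hab
        have hax : a ≠ x := fun h => hirr x (h ▸ ha)
        have hbx : b ≠ x := by
          rintro rfl
          exact hxy hb'
        have hay : a ≠ y := by
          rintro rfl
          exact hxy (hs _ _ ha)
        have heq : s' ++ a :: b :: t' = s ++ x :: y :: t := by rw [← hsplit', hsplit]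
        -- finishing step
        have fin : ∀ l' : List V, l'.Perm l → l'.head? = l.head? → l'.getLast? = l.getLast? →
            bad R l' < bad R l → ∃ l, LP R (U : Set V) p q l := by
          intro l' hp' hh' hl' hlt
          exact ih (bad R l') (by omega) l' (hp'.nodup_iff.2 hn)
            (fun v => by rw [hp'.mem_iff, hm]) (by rw [hh', hh]) (by rw [hl', hl]) rfl
        rw [List.append_eq_append_iff] at heq
        rcases heq with ⟨w, hw1, hw2⟩ | ⟨w, hw1, hw2⟩
        · -- `a b` before `x y`
          cases w with
          | nil =>
            simp only [List.nil_append, List.cons.injEq] at hw2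
            exact absurd hw2.1 hax
          | cons w0 w =>
            cases w with
            | nil =>
              simp only [List.cons_append, List.nil_append, List.cons.injEq] at hw2
              exact absurd hw2.2.1 hbx
            | cons w1 w =>
              simp only [List.cons_append, List.cons.injEq] at hw2
              obtain ⟨rfl, rfl, rfl⟩ := hw2
              have hl2 : l = s' ++ a :: b :: (w ++ x :: y :: t) := hsplit'
              refine fin (s' ++ a :: (b :: (w ++ [x])).reverse ++ y :: t) ?_ ?_ ?_ ?_
              · rw [hl2]
                have e : s' ++ a :: b :: (w ++ x :: y :: t) =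
                    s' ++ a :: (b :: (w ++ [x])) ++ y :: t := by simp
                rw [e]
                refine List.Perm.append_right _ (List.Perm.append_left _ (List.Perm.cons _ ?_))
                exact List.reverse_perm _
              · rw [hl2]
                cases s' <;> simp
              · rw [hl2]
                simp [List.getLast?_append, List.getLast?_cons]
              · rw [hl2]
                exact flip_lt R hs s' w t a b x y (fun h => hxy h.2) ha hb'
        · cases w with
          | nil =>
            simp only [List.nil_append, List.cons.injEq] at hw2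
            exact absurd hw2.1.symm hax
          | cons w0 w =>
            cases w with
            | nil =>
              simp only [List.cons_append, List.nil_append, List.cons.injEq] at hw2
              exact absurd hw2.2.1.symm hay
            | cons w1 w =>
              simp only [List.cons_append, List.cons.injEq] at hw2
              obtain ⟨rfl, rfl, rfl⟩ := hw2
              have hl2 : l = s ++ x :: y :: (w ++ a :: b :: t') := hsplit
              refine fin (s ++ x :: (y :: (w ++ [a])).reverse ++ b :: t') ?_ ?_ ?_ ?_
              · rw [hl2]
                have e : s ++ x :: y :: (w ++ a :: b :: t') =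
                    s ++ x :: (y :: (w ++ [a])) ++ b :: t' := by simp
                rw [e]
                refine List.Perm.append_right _ (List.Perm.append_left _ (List.Perm.cons _ ?_))
                exact List.reverse_perm _
              · rw [hl2]
                cases s <;> simp
              · rw [hl2]
                simp [List.getLast?_append, List.getLast?_cons]
              · rw [hl2]
                exact flip_lt R hs s w t' x y a b (fun h => hxy h.1) (hs _ _ ha) (hs _ _ hb')
  -- a first list
  let m := ((U.erase p).erase q).toList
  have hm0 : ∀ v, v ∈ m ↔ v ≠ q ∧ v ≠ p ∧ v ∈ U := by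
    intro v
    simp [m, and_assoc]
  refine key _ (p :: (m ++ [q])) ?_ ?_ rfl ?_ rfl
  · rw [List.nodup_cons, List.nodup_append]
    refine ⟨?_, Finset.nodup_toList _, by simp, ?_⟩
    · rw [List.mem_append, not_or]
      refine ⟨fun h => ((hm0 p).1 h).2.1 rfl, by simpa using hpq⟩
    · intro a ha b hb
      rw [List.mem_singleton] at hb
      subst hb
      exact ((hm0 a).1 ha).1
  · intro v
    rw [List.mem_cons, List.mem_append, hm0, List.mem_singleton]
    constructor
    · rintro (rfl | ⟨_, _, h⟩ | rfl)
      · exact hp
      · exact h
      · exact hq
    · intro hv
      by_cases h1 : v = p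
      · left; exact h1
      · by_cases h2 : v = q
        · right; right; exact h2
        · right; left; exact ⟨h2, h1, hv⟩
  · rw [List.getLast?_cons, List.getLast?_append]
    simp

end Pool.Agent.E8helper34.HC
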