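import Pool.Agent.E8helper34.HC.Lev
import Pool.Agent.E8helper34.HC.Base

/-!
Chains of symmetric and alternating groups.
-/

set_option autoImplicit false
set_option linter.dupNamespace false

namespace Pool.Agent.E8helper34.HC

open Equiv

theorem LP.map {V W : Type*} {R : V → V → Prop} {R' : W → W → Prop} (f : V → W)
    (hf : Function.Injective f) (hR : ∀ x y, R x y → R' (f x) (f y)) {S : Set V} {x y : V}
    {l : List V} (h : LP R S x y l) : LP R' (f '' S) (f x) (f y) (l.map f) := by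
  refine ⟨h.nodup.map hf, ?_, ?_, ?_, ?_⟩
  · intro v
    rw [List.mem_map, Set.mem_image]
    constructor
    · rintro ⟨a, ha, rfl⟩
      exact ⟨a, (h.mem a).1 ha, rfl⟩
    · rintro ⟨a, ha, rfl⟩
      exact ⟨a, (h.mem a).2 ha, rfl⟩
  · rw [List.isChain_map]
    exact h.chain.imp hR
  · rw [List.head?_map, h.head]; rfl
  · rw [List.getLast?_map, h.last]; rfl

variable {G G' : Type*} [Group G] [Group G']

theorem HC_map (φ : G →* G') (hφ : Function.Injective φ) {A : Set G'} {H : Subgroup G}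
    (h : HC (φ ⁻¹' A) H) : HC A (H.map φ) := by
  rintro _ ⟨x, hx, rfl⟩ _ ⟨y, hy, rfl⟩ hxy
  obtain ⟨l, hl⟩ := h x hx y hy (fun e => hxy (by rw [e]))
  refine ⟨l.map φ, ?_⟩
  have := hl.map (R' := St A) φ hφ (by
    intro a b hab
    show (φ a)⁻¹ * φ b ∈ A
    rw [← map_inv, ← map_mul]
    exact hab)
  exact this.congr (by rw [Subgroup.coe_map])

theorem LC_map (φ : G →* G') (hφ : Function.Injective φ) {A : Set G'} {H : Subgroup G}
    {e : G →* ℤˣ} {e' : G' →* ℤˣ} (he : ∀ g, e' (φ g) = e g)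
    (h : LC (φ ⁻¹' A) e H) : LC A e' (H.map φ) := by
  rintro _ ⟨x, hx, rfl⟩ _ ⟨y, hy, rfl⟩ hxy
  obtain ⟨l, hl⟩ := h x hx y hy (fun h' => hxy (by
    show e' (φ x) = e' (φ y)
    rw [he, he, h']))
  refine ⟨l.map φ, ?_⟩
  have := hl.map (R' := St A) φ hφ (by
    intro a b hab
    show (φ a)⁻¹ * φ b ∈ A
    rw [← map_inv, ← map_mul]
    exact hab)
  exact this.congr (by rw [Subgroup.coe_map])

/-- the embedding of `S_4` -/
def emb {n : ℕ} (hn : 4 ≤ n) : Perm (Fin 4) →* Perm (Fin n) :=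
  Perm.extendDomainHom (Fin.castLEquiv hn)

theorem emb_inj {n : ℕ} (hn : 4 ≤ n) : Function.Injective (emb hn) :=
  Perm.extendDomainHom_injective _

theorem emb_sign {n : ℕ} (hn : 4 ≤ n) (p : Perm (Fin 4)) :
    Perm.sign (emb hn p) = Perm.sign p :=
  Perm.sign_extendDomain _ _

theorem emb_apply {n : ℕ} (hn : 4 ≤ n) (p : Perm (Fin 4)) (i : Fin 4) :
    emb hn p (Fin.castLE hn i) = Fin.castLE hn (p i) :=
  Perm.extendDomain_apply_image p (Fin.castLEquiv hn) i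

theorem emb_fix {n : ℕ} (hn : 4 ≤ n) (p : Perm (Fin 4)) (i : Fin n) (hi : 4 ≤ i.val) :
    emb hn p i = i :=
  Perm.extendDomain_apply_not_subtype p (Fin.castLEquiv hn) (by
    show ¬ (i.val < 4)
    omega)

theorem emb_surj {n : ℕ} (hn : 4 ≤ n) (π : Perm (Fin n)) (hπ : π ∈ Sj n 4) :
    ∃ p, emb hn p = π := by
  have h : ∀ x : Fin n, (π x).val < 4 ↔ x.val < 4 := by
    intro x
    constructor
    · intro hx
      by_contra hcon
      rw [hπ x (by omega)] at hx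
      omega
    · intro hx
      exact Sj_pres hπ hx
  refine ⟨((Fin.castLEquiv hn).trans (π.subtypePerm h)).trans (Fin.castLEquiv hn).symm, ?_⟩
  ext1 i
  by_cases hi : i.val < 4
  · have hi' : i = Fin.castLE hn ⟨i.val, hi⟩ := rfl
    rw [hi', emb_apply]
    show Fin.castLE hn ((Fin.castLEquiv hn).symm (π.subtypePerm h
      ((Fin.castLEquiv hn) ⟨i.val, hi⟩))) = _
    rfl
  · rw [emb_fix hn _ _ (by omega), hπ i (by omega)]

theorem emb_mem {n : ℕ} (hn : 4 ≤ n) (p : Perm (Fin 4)) : emb hn p ∈ Sj n 4 :=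
  fun i hi => emb_fix hn p i hi

theorem map_top {n : ℕ} (hn : 4 ≤ n) : (⊤ : Subgroup (Perm (Fin 4))).map (emb hn) = Sj n 4 := by
  ext π
  rw [Subgroup.mem_map]
  constructor
  · rintro ⟨p, _, rfl⟩
    exact emb_mem hn p
  · intro h
    obtain ⟨p, hp⟩ := emb_surj hn π h
    exact ⟨p, Subgroup.mem_top _, hp⟩

theorem map_alt {n : ℕ} (hn : 4 ≤ n) : (alternatingGroup (Fin 4)).map (emb hn) = Aj n 4 := by
  ext π
  rw [Subgroup.mem_map, mem_Aj]
  constructor
  · rintro ⟨p, hp, rfl⟩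
    rw [Perm.mem_alternatingGroup] at hp
    exact ⟨emb_mem hn p, by rw [emb_sign, hp]⟩
  · rintro ⟨h, h'⟩
    obtain ⟨p, rfl⟩ := emb_surj hn π h
    rw [emb_sign] at h'
    exact ⟨p, Perm.mem_alternatingGroup.2 h', rfl⟩

/-- `A` contains a permutation whose largest moved letter is `k` -/
def Top {n : ℕ} (A : Set (Perm (Fin n))) (k : Fin n) : Prop :=
  ∃ a ∈ A, a k ≠ k ∧ ∀ i : Fin n, k < i → a i = i

theorem Top.down {n : ℕ} (hn : 4 ≤ n) {A : Set (Perm (Fin n))} {k : Fin 4}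
    (h : Top A (Fin.castLE hn k)) : Top (emb hn ⁻¹' A) k := by
  obtain ⟨a, ha, h1, h2⟩ := h
  have haS : a ∈ Sj n 4 := by
    intro i hi
    apply h2
    show k.val < i.val
    have := k.isLt
    omega
  obtain ⟨p, rfl⟩ := emb_surj hn a haS
  refine ⟨p, ha, ?_, ?_⟩
  · intro h
    apply h1
    rw [emb_apply, h]
  · intro i hi
    have := h2 (Fin.castLE hn i) (by show k.val < i.val; exact hi)
    rw [emb_apply] at this
    exact Fin.castLE_injective hn this

theorem p4_one : ∀ p : Perm (Fin 4), p 1 ≠ 1 → (∀ i, 1 < i → p i = i) → p = Base.t01 := by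
  decide +kernel

theorem p4_two : ∀ p : Perm (Fin 4), p 2 ≠ 2 → (∀ i, 2 < i → p i = i) →
    p = Base.t02 ∨ p = Base.t12 ∨ p = Base.sg ∨ p = Base.sg⁻¹ := by
  decide +kernel

theorem p4_even : ∀ p : Perm (Fin 4), p 3 = 3 → Perm.sign p = 1 → p ≠ 1 →
    p = Base.sg ∨ p = Base.sg⁻¹ := by
  decide +kernel

theorem sign_t02 : Perm.sign Base.t02 = -1 := by decide +kernel
theorem sign_t12 : Perm.sign Base.t12 = -1 := by decide +kernel
theorem sign_sg : Perm.sign Base.sg = 1 := by decide +kernel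

/-- `S_4` with an even element -/
theorem p4_HC (A : Set (Perm (Fin 4))) (symA : ∀ a ∈ A, a⁻¹ ∈ A) (h1 : Top A 1) (h2 : Top A 2)
    (h3 : Top A 3) (hb : ∃ b ∈ A, b ≠ 1 ∧ Perm.sign b = 1) : HC A (⊤ : Subgroup (Perm (Fin 4))) := by
  obtain ⟨a1, ha1, hm1, hf1⟩ := h1
  obtain ⟨a2, ha2, hm2, hf2⟩ := h2
  obtain ⟨a3, ha3, hm3, hf3⟩ := h3
  obtain ⟨b, hb, hb1, hbs⟩ := hb
  have e1 := p4_one a1 hm1 hf1
  rw [e1] at ha1
  have hsg : Base.sg ∈ A → Base.sg⁻¹ ∈ A → HC A (⊤ : Subgroup (Perm (Fin 4))) := fun h h' =>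
    Base.baseB A ha1 h h' a3 ha3 (symA _ ha3) hm3
  have hsg' : (Base.sg ∈ A ∨ Base.sg⁻¹ ∈ A) → HC A (⊤ : Subgroup (Perm (Fin 4))) := by
    rintro (h | h)
    · exact hsg h (symA _ h)
    · have := symA _ h
      rw [inv_inv] at this
      exact hsg this h
  have ht : (Base.t02 ∈ A ∨ Base.t12 ∈ A) → HC A (⊤ : Subgroup (Perm (Fin 4))) := by
    intro h
    by_cases hb3 : b 3 = 3
    · rcases p4_even b hb3 hbs hb1 with e | e
      · exact hsg' (Or.inl (e ▸ hb))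
      · exact hsg' (Or.inr (e ▸ hb))
    · exact Base.baseC A ha1 h b hb (symA _ hb) hb3 hbs
  rcases p4_two a2 hm2 hf2 with e | e | e | e
  · exact ht (Or.inl (e ▸ ha2))
  · exact ht (Or.inr (e ▸ ha2))
  · exact hsg' (Or.inl (e ▸ ha2))
  · exact hsg' (Or.inr (e ▸ ha2))

/-- `A_4` -/
theorem p4_HC_alt (A : Set (Perm (Fin 4))) (symA : ∀ a ∈ A, a⁻¹ ∈ A)
    (evA : ∀ a ∈ A, Perm.sign a = 1) (h2 : Top A 2) (h3 : Top A 3) :
    HC A (alternatingGroup (Fin 4)) := by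
  obtain ⟨a2, ha2, hm2, hf2⟩ := h2
  obtain ⟨a3, ha3, hm3, hf3⟩ := h3
  have hsg : Base.sg ∈ A → Base.sg⁻¹ ∈ A → HC A (alternatingGroup (Fin 4)) := fun h h' =>
    Base.baseA A h h' a3 ha3 (symA _ ha3) hm3 (evA _ ha3)
  rcases p4_two a2 hm2 hf2 with e | e | e | e
  · have := evA _ ha2
    rw [e, sign_t02] at this
    exact absurd this (by decide)
  · have := evA _ ha2
    rw [e, sign_t12] at this
    exact absurd this (by decide)
  · rw [e] at ha2
    exact hsg ha2 (symA _ ha2)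
  · rw [e] at ha2
    have := symA _ ha2
    rw [inv_inv] at this
    exact hsg this ha2

/-- `S_4` with odd elements -/
theorem p4_LC (A : Set (Perm (Fin 4))) (symA : ∀ a ∈ A, a⁻¹ ∈ A)
    (odA : ∀ a ∈ A, Perm.sign a = -1) (h1 : Top A 1) (h2 : Top A 2)
    (h3 : Top A 3) : LC A Perm.sign (⊤ : Subgroup (Perm (Fin 4))) := by
  obtain ⟨a1, ha1, hm1, hf1⟩ := h1
  obtain ⟨a2, ha2, hm2, hf2⟩ := h2
  obtain ⟨a3, ha3, hm3, hf3⟩ := h3
  have e1 := p4_one a1 hm1 hf1
  rw [e1] at ha1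
  have ht : (Base.t02 ∈ A ∨ Base.t12 ∈ A) → LC A Perm.sign (⊤ : Subgroup (Perm (Fin 4))) := by
    intro h
    exact Base.baseD A ha1 h a3 ha3 (symA _ ha3) hm3 (odA _ ha3)
  rcases p4_two a2 hm2 hf2 with e | e | e | e
  · exact ht (Or.inl (e ▸ ha2))
  · exact ht (Or.inr (e ▸ ha2))
  · have := odA _ ha2
    rw [e, sign_sg] at this
    exact absurd this (by decide)
  · have := odA _ ha2
    rw [e, Perm.sign_inv, sign_sg] at this
    exact absurd this (by decide)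

theorem Top.mem {n : ℕ} {A : Set (Perm (Fin n))} {j : ℕ} (hjn : j < n)
    (h : Top A ⟨j, hjn⟩) : ∃ c ∈ A, c ∈ Sj n (j + 1) ∧ c ∉ Sj n j := by
  obtain ⟨c, hc, h1, h2⟩ := h
  refine ⟨c, hc, ?_, ?_⟩
  · intro i hi
    apply h2
    show j < i.val
    omega
  · intro h
    exact h1 (h _ le_rfl)

/-- **Symmetric groups.** -/
theorem HC_sym {n : ℕ} (hn : 4 ≤ n) (A : Set (Perm (Fin n))) (symA : ∀ a ∈ A, a⁻¹ ∈ A)
    (hT : ∀ k : Fin n, 1 ≤ k.val → Top A k)
    (hb : ∃ b ∈ A, b ≠ 1 ∧ Perm.sign b = 1 ∧ ∀ i : Fin n, 4 ≤ i.val → b i = i) :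
    ∀ j, 4 ≤ j → j ≤ n → HC A (Sj n j) := by
  intro j hj
  induction j, hj using Nat.le_induction with
  | base =>
    intro _
    rw [← map_top hn]
    apply HC_map _ (emb_inj hn)
    apply p4_HC
    · intro a ha
      rw [Set.mem_preimage, map_inv]
      exact symA _ ha
    · exact Top.down hn (hT _ (by show 1 ≤ 1; exact le_rfl))
    · exact Top.down hn (hT _ (by show 1 ≤ 2; omega))
    · exact Top.down hn (hT _ (by show 1 ≤ 3; omega))
    · obtain ⟨b, hb, hb1, hbs, hbf⟩ := hb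
      obtain ⟨p, rfl⟩ := emb_surj hn b hbf
      refine ⟨p, hb, ?_, ?_⟩
      · intro h
        apply hb1
        rw [h, map_one]
      · rw [← hbs, emb_sign]
  | succ j hj ih =>
    intro hjn
    obtain ⟨c, hcA, hc, hc'⟩ := (hT ⟨j, by omega⟩ (by show 1 ≤ j; omega)).mem
    refine level_HC (by omega : j < n) hj (levS (by omega)) ?_ symA hcA hc hc' (ih (by omega))
    exact inf_le_left

/-- **Alternating groups.** -/
theorem HC_alt {n : ℕ} (hn : 4 ≤ n) (A : Set (Perm (Fin n))) (symA : ∀ a ∈ A, a⁻¹ ∈ A)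
    (evA : ∀ a ∈ A, Perm.sign a = 1) (hT : ∀ k : Fin n, 2 ≤ k.val → Top A k) :
    ∀ j, 4 ≤ j → j ≤ n → HC A (Aj n j) := by
  intro j hj
  induction j, hj using Nat.le_induction with
  | base =>
    intro _
    rw [← map_alt hn]
    apply HC_map _ (emb_inj hn)
    apply p4_HC_alt
    · intro a ha
      rw [Set.mem_preimage, map_inv]
      exact symA _ ha
    · intro a ha
      rw [← emb_sign hn, evA _ ha]
    · exact Top.down hn (hT _ (by show 2 ≤ 2; exact le_rfl))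
    · exact Top.down hn (hT _ (by show 2 ≤ 3; omega))
  | succ j hj ih =>
    intro hjn
    obtain ⟨c, hcA, hc, hc'⟩ := (hT ⟨j, by omega⟩ (by show 2 ≤ j; omega)).mem
    refine level_HC (by omega : j < n) hj (levA (by omega) (by omega)) le_rfl symA hcA
      (mem_Aj.2 ⟨hc, evA c hcA⟩) (fun h => hc' (mem_Aj.1 h).1) (ih (by omega))

/-- **Symmetric groups, odd generators.** -/
theorem LC_sym {n : ℕ} (hn : 4 ≤ n) (A : Set (Perm (Fin n))) (symA : ∀ a ∈ A, a⁻¹ ∈ A)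
    (odA : ∀ a ∈ A, Perm.sign a = -1) (hT : ∀ k : Fin n, 1 ≤ k.val → Top A k) :
    ∀ j, 4 ≤ j → j ≤ n → LC A Perm.sign (Sj n j) := by
  intro j hj
  induction j, hj using Nat.le_induction with
  | base =>
    intro _
    rw [← map_top hn]
    apply LC_map (e := Perm.sign) _ (emb_inj hn) (emb_sign hn)
    apply p4_LC
    · intro a ha
      rw [Set.mem_preimage, map_inv]
      exact symA _ ha
    · intro a ha
      rw [← emb_sign hn, odA _ ha]
    · exact Top.down hn (hT _ (by show 1 ≤ 1; exact le_rfl))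
    · exact Top.down hn (hT _ (by show 1 ≤ 2; omega))
    · exact Top.down hn (hT _ (by show 1 ≤ 3; omega))
  | succ j hj ih =>
    intro hjn
    obtain ⟨c, hcA, hc, hc'⟩ := (hT ⟨j, by omega⟩ (by show 1 ≤ j; omega)).mem
    exact level_LC (by omega : j < n) hj symA odA hcA hc hc' (ih (by omega))

theorem Sj_top (n : ℕ) : Sj n n = ⊤ := by
  rw [eq_top_iff]
  intro π _ i hi
  have := i.isLt
  omega

theorem Aj_top (n : ℕ) : Aj n n = alternatingGroup (Fin n) := by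
  rw [Aj, Sj_top, top_inf_eq]

end Pool.Agent.E8helper34.HC
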