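import Pool.Agent.E8helper34.HC.Lift

/-!
The two instances of the lifting theorem: Hamilton-connected and Hamilton-laceable.
-/

set_option autoImplicit false
set_option linter.dupNamespace false

namespace Pool.Agent.E8helper34.HC

variable {G : Type*} [Group G]

omit [Group G] in
theorem exists_ne_ne {S : Set G} (h : 3 ≤ S.ncard) (a b : G) : ∃ x ∈ S, x ≠ a ∧ x ≠ b := by
  by_contra hcon
  push Not at hcon
  have h1 : S ⊆ {a, b} := by
    intro x hx
    by_cases h : x = a
    · left; exact h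
    · right; exact hcon x hx h
  have h2 := Set.ncard_le_ncard h1 (Set.toFinite _)
  have h3 : ({a, b} : Set G).ncard ≤ 2 := by
    have := Set.ncard_insert_le a {b}
    rw [Set.ncard_singleton] at this
    exact this
  omega

/-- **The step for Hamilton-connected graphs.** -/
theorem step_HC [Finite G] {A : Set G} {H K : Subgroup G} {C : Set G}
    (symA : ∀ a ∈ A, a⁻¹ ∈ A) (CA : C ⊆ A) (symC : ∀ c ∈ C, c⁻¹ ∈ C) (CK : ∀ c ∈ C, c ∈ K)
    (CH : ∀ c ∈ C, c ∉ H) (HK : H ≤ K) (hH : HC A H)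
    (h3 : ∀ c ∈ C, 3 ≤ {h : G | h ∈ H ∧ c⁻¹ * h * c ∈ H}.ncard)
    (deg : Nat.card K + 2 * Nat.card H ≤ 2 * (HCH H C).ncard) : HC A K := by
  have S : Setup A H K C (fun x y => x ≠ y) := by
    refine ⟨symA, CA, symC, CK, CH, HK, ?_, hH, ?_, ?_, deg⟩
    · intro g x y hxy h
      exact hxy (mul_left_cancel h)
    · intro x c hc u v _ _
      obtain ⟨h, ⟨hh, hch⟩, hne1, hne2⟩ := exists_ne_ne (h3 c hc) (x⁻¹ * u) (x⁻¹ * v * c⁻¹)
      refine ⟨x * h, QuotientGroup.mk_mul_of_mem _ hh, ?_, ?_, ?_⟩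
      · have : x * h * c = x * c * (c⁻¹ * h * c) := by group
        rw [this, QuotientGroup.mk_mul_of_mem _ hch]
      · intro e
        apply hne1
        rw [e, inv_mul_cancel_left]
      · intro e
        apply hne2
        rw [← e]
        group
    · intro x x' _ c _ c' _ hne h
      exact hne (by rw [h])
  intro x hx y hy hxy
  exact S.main x y hx hy hxy (fun _ _ h => h)

theorem units_cases (a b : ℤˣ) : a = b ∨ a = -b := by
  rcases Int.units_eq_one_or a with rfl | rfl <;> rcases Int.units_eq_one_or b with rfl | rfl <;>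
    simp

theorem units_ne (a b : ℤˣ) : a ≠ b ↔ a = -b := by
  rcases Int.units_eq_one_or a with rfl | rfl <;> rcases Int.units_eq_one_or b with rfl | rfl <;>
    simp

/-- **The step for Hamilton-laceable graphs.** -/
theorem step_LC [Finite G] {A : Set G} {H K : Subgroup G} {C : Set G} {e : G →* ℤˣ}
    (symA : ∀ a ∈ A, a⁻¹ ∈ A) (odd : ∀ a ∈ A, e a = -1)
    (CA : C ⊆ A) (symC : ∀ c ∈ C, c⁻¹ ∈ C) (CK : ∀ c ∈ C, c ∈ K)
    (CH : ∀ c ∈ C, c ∉ H) (HK : H ≤ K) (hH : LC A e H)
    (h1 : ∀ c ∈ C, ∃ h ∈ H, e h = -1 ∧ c⁻¹ * h * c ∈ H)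
    (deg : Nat.card K + 2 * Nat.card H ≤ 2 * (HCH H C).ncard) : LC A e K := by
  have S : Setup A H K C (fun x y => e x ≠ e y) := by
    refine ⟨symA, CA, symC, CK, CH, HK, ?_, hH, ?_, ?_, deg⟩
    · intro g x y hxy h
      rw [map_mul, map_mul] at h
      exact hxy (mul_left_cancel h)
    · intro x c hc u v hux huv
      have hxu : x⁻¹ * u ∈ H := QuotientGroup.eq.1 hux.symm
      obtain ⟨h0, hh0, ho0, hc0⟩ := h1 c hc
      -- an element of any sign
      have key : ∀ s : ℤˣ, ∃ h ∈ H, e h = s ∧ c⁻¹ * h * c ∈ H := by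
        intro s
        rcases Int.units_eq_one_or s with rfl | rfl
        · exact ⟨1, H.one_mem, map_one e, by
            rw [mul_one, inv_mul_cancel]; exact H.one_mem⟩
        · exact ⟨h0, hh0, ho0, hc0⟩
      obtain ⟨h, hh, hs, hch⟩ := key (- (e x)⁻¹ * e u)
      refine ⟨x * h, QuotientGroup.mk_mul_of_mem _ hh, ?_, ?_, ?_⟩
      · have : x * h * c = x * c * (c⁻¹ * h * c) := by group
        rw [this, QuotientGroup.mk_mul_of_mem _ hch]
      · rw [units_ne, map_mul, hs, neg_mul, mul_neg, neg_neg, mul_inv_cancel_left]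
      · rw [map_mul, map_mul, hs, odd c (CA hc), neg_mul, mul_neg, mul_neg, mul_inv_cancel_left,
          mul_one, neg_neg]
        exact huv
    · intro x x' hxx' c hc c' hc' _
      have hx' : e x' = - e x := by
        have h2 := odd _ hxx'
        rw [map_mul, map_inv] at h2
        have h3 : e x' = e x * ((e x)⁻¹ * e x') := by rw [mul_inv_cancel_left]
        rw [h3, h2, mul_neg, mul_one]
      rw [units_ne, map_mul, map_mul, odd c (CA hc), odd c' (CA hc'), hx']
      simp
  intro x hx y hy hxy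
  exact S.main x y hx hy hxy (fun x y h hxy => h (by rw [hxy]))

end Pool.Agent.E8helper34.HC
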